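import Mathlib

/-!
Countable support iterations of Laver-type tree forcings, presented in the ground model as a
monoid of causal continuous maps.  Basic notions.
-/

set_option autoImplicit false
set_option linter.unusedSectionVars false

namespace Pool.Agent.Lib.Common.TreeIter

open Set Filter Function

/-- Increasing pairs of natural numbers. -/
def V : Type := {p : ℕ × ℕ // p.1 < p.2}

instance : Inhabited V := ⟨⟨(0, 1), by simp⟩⟩
instance : Countable V := by unfold V; infer_instance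

/-- Splitting maps: those induced by a strictly increasing map of the natural numbers. -/
def IsS (a : V → V) : Prop := ∃ e : ℕ → ℕ, StrictMono e ∧ ∀ v, (a v).1 = (e v.1.1, e v.1.2)

theorem IsS.id : IsS (fun v => v) := ⟨fun n => n, strictMono_id, fun _ => rfl⟩

theorem IsS.comp {a b : V → V} (ha : IsS a) (hb : IsS b) : IsS (fun v => a (b v)) := by
  obtain ⟨e, he, h⟩ := ha
  obtain ⟨e', he', h'⟩ := hb
  exact ⟨e ∘ e', he.comp he', fun v => by rw [h, h']; rfl⟩

theorem IsS.injective {a : V → V} (ha : IsS a) : Injective a := by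
  obtain ⟨e, he, h⟩ := ha
  intro v w hvw
  have := (h v).symm.trans ((congrArg Subtype.val hvw).trans (h w))
  simp only [Prod.mk.injEq] at this
  exact Subtype.ext (Prod.ext (he.injective this.1) (he.injective this.2))

theorem IsS.closed {a : V → V} (h : ∀ v w, ∃ b, IsS b ∧ a v = b v ∧ a w = b w) : IsS a := by
  let u : ℕ → V := fun i => ⟨(i, i + 1), by simp⟩
  have h1 : ∀ v : V, (a v).1 = ((a (u v.1.1)).1.1, (a (u v.1.2)).1.1) := by
    intro v
    obtain ⟨b, ⟨e, -, he⟩, h1, h2⟩ := h v (u v.1.1)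
    obtain ⟨b', ⟨e', -, he'⟩, h1', h2'⟩ := h v (u v.1.2)
    refine Prod.ext ?_ ?_
    · rw [h1, h2, he, he]
    · rw [h1', h2', he', he']
  refine ⟨fun i => (a (u i)).1.1, fun i j hij => ?_, h1⟩
  have := (a ⟨(i, j), hij⟩).2
  rwa [h1] at this

/-- Spots. -/
abbrev W (I : Type) := I ×ₗ ℕ

/-- Configurations. -/
abbrev X (I : Type) := W I → V

variable {I : Type} [LinearOrder I]

def sp (α : I) (j : ℕ) : W I := toLex (α, j)
def co (s : W I) : I := (ofLex s).1
def lv (s : W I) : ℕ := (ofLex s).2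

@[simp] theorem co_sp (α : I) (j : ℕ) : co (sp α j) = α := rfl
@[simp] theorem lv_sp (α : I) (j : ℕ) : lv (sp α j) = j := rfl
@[simp] theorem sp_co_lv (s : W I) : sp (co s) (lv s) = s := rfl

theorem sp_lt_sp {α β : I} {i j : ℕ} : sp α i < sp β j ↔ α < β ∨ α = β ∧ i < j :=
  Prod.Lex.toLex_lt_toLex

theorem sp_le_sp {α β : I} {i j : ℕ} : sp α i ≤ sp β j ↔ α < β ∨ α = β ∧ i ≤ j :=
  Prod.Lex.toLex_le_toLex

theorem sp_inj {α β : I} {i j : ℕ} : sp α i = sp β j ↔ α = β ∧ i = j := by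
  constructor
  · intro h
    exact ⟨congrArg co h, congrArg lv h⟩
  · rintro ⟨rfl, rfl⟩; rfl

theorem lt_sp_iff {s : W I} {β : I} {j : ℕ} : s < sp β j ↔ co s < β ∨ co s = β ∧ lv s < j :=
  sp_lt_sp (α := co s) (i := lv s)

theorem lt_sp_zero {s : W I} {β : I} : s < sp β 0 ↔ co s < β := by simp [lt_sp_iff]

theorem lt_sp_succ {s : W I} {β : I} {j : ℕ} : s < sp β (j + 1) ↔ s ≤ sp β j := by
  rw [lt_sp_iff, ← sp_co_lv s, sp_le_sp]
  simp

theorem Iio_sp_succ (β : I) (j : ℕ) : Iio (sp β (j + 1)) = Iic (sp β j) := by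
  ext s; exact lt_sp_succ

theorem sp_mono (β : I) {i j : ℕ} (h : i ≤ j) : sp β i ≤ sp β j := sp_le_sp.2 (Or.inr ⟨rfl, h⟩)

theorem sp_strictMono (β : I) {i j : ℕ} (h : i < j) : sp β i < sp β j :=
  sp_lt_sp.2 (Or.inr ⟨rfl, h⟩)

/-- The filter of cylinders around `x` given by finitely many spots of `S`. -/
def nb (S : Set (W I)) (x : X I) : Filter (X I) where
  sets := {A | ∃ D : Set (W I), D.Finite ∧ D ⊆ S ∧ ∀ y, (∀ s ∈ D, y s = x s) → y ∈ A}
  univ_sets := ⟨∅, finite_empty, empty_subset _, fun _ _ => trivial⟩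
  sets_of_superset := by
    rintro A B ⟨D, h1, h2, h3⟩ h
    exact ⟨D, h1, h2, fun y hy => h (h3 y hy)⟩
  inter_sets := by
    rintro A B ⟨D, h1, h2, h3⟩ ⟨D', h1', h2', h3'⟩
    exact ⟨D ∪ D', h1.union h1', union_subset h2 h2', fun y hy =>
      ⟨h3 y fun s hs => hy s (Or.inl hs), h3' y fun s hs => hy s (Or.inr hs)⟩⟩

theorem ev_nb {S : Set (W I)} {x : X I} {u : X I → Prop} : (∀ᶠ y in nb S x, u y) ↔
    ∃ D : Set (W I), D.Finite ∧ D ⊆ S ∧ ∀ y, (∀ s ∈ D, y s = x s) → u y := Iff.rfl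

theorem nb_self {S : Set (W I)} {x : X I} {u : X I → Prop} (h : ∀ᶠ y in nb S x, u y) : u x :=
  let ⟨_, _, _, h⟩ := h; h x fun _ _ => rfl

theorem nb_mono {S S' : Set (W I)} (h : S ⊆ S') {x : X I} {u : X I → Prop}
    (hu : ∀ᶠ y in nb S x, u y) : ∀ᶠ y in nb S' x, u y :=
  let ⟨D, h1, h2, h3⟩ := hu; ⟨D, h1, h2.trans h, h3⟩

theorem nb_of_agree {S : Set (W I)} {x y : X I} {u : X I → Prop} (hu : ∀ᶠ z in nb S x, u z)
    (h : ∀ s ∈ S, y s = x s) : u y :=
  let ⟨_, _, h2, h3⟩ := hu; h3 y fun s hs => h s (h2 hs)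

theorem nb_spot {S : Set (W I)} {s : W I} (hs : s ∈ S) (x : X I) : ∀ᶠ y in nb S x, y s = x s :=
  ⟨{s}, finite_singleton s, singleton_subset_iff.2 hs, fun _ h => h s rfl⟩

theorem nb_nb {S : Set (W I)} {x : X I} {u : X I → Prop} (h : ∀ᶠ y in nb S x, u y) :
    ∀ᶠ y in nb S x, ∀ᶠ z in nb S y, u z :=
  let ⟨D, h1, h2, h3⟩ := h
  ⟨D, h1, h2, fun _ hy => ⟨D, h1, h2, fun z hz => h3 z fun s hs => (hz s hs).trans (hy s hs)⟩⟩

/-- A property depending only on `S` holds on a cylinder given by spots of `S`. -/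
theorem nb_restrict {S S' : Set (W I)} {x : X I} {u : X I → Prop} (h : ∀ᶠ y in nb S' x, u y)
    (hd : ∀ y z, (∀ s ∈ S, y s = z s) → u y → u z) : ∀ᶠ y in nb S x, u y := by
  classical
  obtain ⟨D, h1, -, h3⟩ := h
  refine ⟨D ∩ S, h1.inter_of_left _, inter_subset_right, fun y hy => ?_⟩
  refine hd (fun s => if s ∈ S then y s else x s) y (fun s hs => if_pos hs) (h3 _ fun s hs => ?_)
  by_cases h' : s ∈ S
  · rw [if_pos h']; exact hy s ⟨hs, h'⟩
  · rw [if_neg h']

theorem nb_update {S : Set (W I)} {x : X I} {u : X I → Prop} (h : ∀ᶠ y in nb S x, u y) (α : I) :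
    ∃ L, ∀ᶠ y in nb S x, ∀ j ≥ L, ∀ v, u (update y (sp α j) v) := by
  obtain ⟨D, h1, h2, h3⟩ := h
  obtain ⟨L, hL⟩ := (h1.image lv).bddAbove
  refine ⟨L + 1, D, h1, h2, fun y hy j hj v => h3 _ fun s hs => ?_⟩
  rw [update_of_ne, hy s hs]
  rintro rfl
  have := hL (mem_image_of_mem lv hs)
  simp at this
  omega

/-- Locally constant functions depending on countably many spots of `T`. -/
def CD {Y : Sort*} (T : Set (W I)) (f : X I → Y) : Prop :=
  ∃ S ⊆ T, S.Countable ∧ ∀ x, ∀ᶠ y in nb S x, f y = f x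

section CD
variable {Y Z : Sort*} {T T' : Set (W I)} {f : X I → Y} {g : X I → Z}

theorem CD.mono (h : CD T f) (hT : T ⊆ T') : CD T' f :=
  let ⟨S, h1, h2, h3⟩ := h; ⟨S, h1.trans hT, h2, h3⟩

theorem CD.ev (h : CD T f) (x : X I) : ∀ᶠ y in nb T x, f y = f x :=
  let ⟨_, h1, _, h3⟩ := h; nb_mono h1 (h3 x)

theorem CD.congr (h : CD T f) {x y : X I} (hxy : ∀ s ∈ T, y s = x s) : f y = f x :=
  nb_of_agree (h.ev x) hxy

theorem CD.const (T : Set (W I)) (c : Y) : CD T (fun _ : X I => c) :=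
  ⟨∅, empty_subset _, countable_empty, fun _ => Eventually.of_forall fun _ => rfl⟩

theorem CD.spot {s : W I} (hs : s ∈ T) : CD T (fun x : X I => x s) :=
  ⟨{s}, singleton_subset_iff.2 hs, countable_singleton s, fun x => nb_spot (mem_singleton s) x⟩

theorem CD.map (h : CD T f) (φ : Y → Z) : CD T (fun x => φ (f x)) :=
  let ⟨S, h1, h2, h3⟩ := h; ⟨S, h1, h2, fun x => (h3 x).mono fun _ hy => congrArg φ hy⟩

theorem CD.map₂ {U : Sort*} (h : CD T f) (h' : CD T g) (φ : Y → Z → U) :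
    CD T (fun x => φ (f x) (g x)) :=
  let ⟨S, h1, h2, h3⟩ := h
  let ⟨S', h1', h2', h3'⟩ := h'
  ⟨S ∪ S', union_subset h1 h1', h2.union h2', fun x => by
    filter_upwards [nb_mono subset_union_left (h3 x), nb_mono subset_union_right (h3' x)]
      with y a b
    rw [a, b]⟩

theorem CD.of_dep (h : CD T f) (hd : ∀ x y, (∀ s ∈ T', x s = y s) → f x = f y) : CD T' f := by
  obtain ⟨S, h1, h2, h3⟩ := h
  refine ⟨S ∩ T', inter_subset_right, h2.mono inter_subset_left, fun x => ?_⟩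
  refine nb_restrict (h3 x) fun y z hyz hy => ?_
  classical
  let w : X I := fun s => if s ∈ S then y s else z s
  have e1 : f w = f y := nb_of_agree (h3 y) fun s hs => if_pos hs
  have e2 : f w = f z := hd _ _ fun s hs => by
    by_cases h' : s ∈ S
    · exact (if_pos h').trans (hyz s ⟨h', hs⟩)
    · exact if_neg h'
  rw [← e2, e1, hy]

/-- A common countable set of spots for countably many functions. -/
theorem CD.common {J : Type*} {Y : J → Sort*} {A : Set J} (hA : A.Countable)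
    {f : ∀ j, X I → Y j} (h : ∀ j ∈ A, CD T (f j)) :
    ∃ S ⊆ T, S.Countable ∧ ∀ j ∈ A, ∀ x, ∀ᶠ y in nb S x, f j y = f j x := by
  choose! S h1 h2 h3 using h
  exact ⟨⋃ j ∈ A, S j, iUnion₂_subset h1, hA.biUnion h2, fun j hj x =>
    nb_mono (subset_biUnion_of_mem (u := S) hj) (h3 j hj x)⟩

theorem CD.pi {J : Type*} [Finite J] {Y : J → Sort*} {f : ∀ j, X I → Y j}
    (h : ∀ j, CD T (f j)) : CD T (fun x j => f j x) := by
  obtain ⟨S, h1, h2, h3⟩ := CD.common (countable_univ (α := J)) (f := f) (fun j _ => h j)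
  refine ⟨S, h1, h2, fun x => ?_⟩
  filter_upwards [eventually_all.2 fun j => h3 j trivial x] with y hy
  exact funext hy

end CD

open Classical in
/-- Overwriting the spots of `D` by the values of `z`. -/
noncomputable def fix (D : Set (W I)) (z : X I) : X I → X I :=
  fun x s => if s ∈ D then z s else x s

theorem fix_of_mem {D : Set (W I)} {s : W I} (h : s ∈ D) (z x : X I) : fix D z x s = z s :=
  if_pos h

theorem fix_of_notMem {D : Set (W I)} {s : W I} (h : s ∉ D) (z x : X I) : fix D z x s = x s :=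
  if_neg h

theorem fix_eq_self {D : Set (W I)} {z x : X I} : fix D z x = x ↔ ∀ s ∈ D, x s = z s := by
  constructor
  · intro h s hs
    rw [← h, fix_of_mem hs]
  · intro h
    funext s
    by_cases hs : s ∈ D
    · rw [fix_of_mem hs, h s hs]
    · rw [fix_of_notMem hs]

theorem fix_self (D : Set (W I)) (x : X I) : fix D x x = x := fix_eq_self.2 fun _ _ => rfl

theorem fix_congr {D : Set (W I)} {z z' : X I} (h : ∀ s ∈ D, z s = z' s) : fix D z = fix D z' := by
  funext x s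
  by_cases hs : s ∈ D
  · rw [fix_of_mem hs, fix_of_mem hs, h s hs]
  · rw [fix_of_notMem hs, fix_of_notMem hs]

theorem countable_fix {S : Set (W I)} (hS : S.Countable) :
    {g | ∃ D z, D.Finite ∧ D ⊆ S ∧ g = fix D z}.Countable := by
  classical
  have : {g | ∃ D z, D.Finite ∧ D ⊆ S ∧ g = fix D z} ⊆ ⋃ D ∈ {D : Set (W I) | D.Finite ∧ D ⊆ S},
      range fun σ : D → V => fix D (fun s => if h : s ∈ D then σ ⟨s, h⟩ else default) := by
    rintro g ⟨D, z, h1, h2, rfl⟩
    refine mem_biUnion (x := D) ⟨h1, h2⟩ ⟨fun s => z s, fix_congr fun s hs => ?_⟩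
    simp [hs]
  refine Set.Countable.mono this ((countable_ofPred_finite_subset hS).biUnion fun D hD => ?_)
  have := hD.1.to_subtype
  exact countable_range _

theorem CD.countable_range {Y : Type*} {T : Set (W I)} {f : X I → Y} (h : CD T f) :
    (range f).Countable := by
  obtain ⟨S, -, h2, h3⟩ := h
  refine ((countable_fix h2).image fun g => f (g default)).mono ?_
  rintro _ ⟨x, rfl⟩
  obtain ⟨D, a, b, c⟩ := h3 x
  exact ⟨fix D x, ⟨D, x, a, b, rfl⟩, c _ fun s hs => fix_of_mem hs _ _⟩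

theorem CD.cases {Y : Sort*} {J : Type*} {T : Set (W I)} {g : X I → J} (hg : CD T g)
    {F : J → X I → Y} (hF : ∀ x, CD T (F (g x))) : CD T (fun x => F (g x) x) := by
  obtain ⟨S, h1, h2, h3⟩ := CD.common (Y := fun _ => Y) hg.countable_range (f := F)
    (by rintro _ ⟨x, rfl⟩; exact hF x)
  obtain ⟨S', h1', h2', h3'⟩ := hg
  refine ⟨S ∪ S', union_subset h1 h1', h2.union h2', fun x => ?_⟩
  filter_upwards [nb_mono subset_union_left (h3 _ ⟨x, rfl⟩ x), nb_mono subset_union_right (h3' x)]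
    with y a b
  rw [b, a]

/-- Locally constant selection of a good cylinder. -/
theorem select {T S : Set (W I)} (hST : S ⊆ T) (hS : S.Countable) {Q : (X I → X I) → Prop}
    (h : ∀ x, ∃ D, D.Finite ∧ D ⊆ S ∧ Q (fix D x)) :
    ∃ ρ : X I → X I → X I, CD T ρ ∧ ∀ x, Q (ρ x) ∧ ∃ D, D.Finite ∧ D ⊆ T ∧ ρ x = fix D x := by
  classical
  obtain ⟨e, he⟩ := ((countable_fix hS).mono (inter_subset_left (t := {g | Q g}))).exists_eq_range
    (by
      obtain ⟨D, a, b, c⟩ := h default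
      exact ⟨_, ⟨D, default, a, b, rfl⟩, c⟩)
  have hex : ∀ x, ∃ n, e n x = x := fun x => by
    obtain ⟨D, a, b, c⟩ := h x
    obtain ⟨n, hn⟩ : fix D x ∈ range e := he ▸ ⟨⟨D, x, a, b, rfl⟩, c⟩
    exact ⟨n, by rw [hn, fix_self]⟩
  have hm : ∀ n, (∃ D z, D.Finite ∧ D ⊆ S ∧ e n = fix D z) ∧ Q (e n) := fun n => by
    have : e n ∈ range e := ⟨n, rfl⟩
    rw [← he] at this
    exact this
  have hloc : ∀ n x, ∀ᶠ y in nb S x, (e n y = y ↔ e n x = x) := fun n x => by
    obtain ⟨⟨D, z, a, b, c⟩, -⟩ := hm n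
    refine ⟨D, a, b, fun y hy => ?_⟩
    show _ ↔ _
    rw [c, fix_eq_self, fix_eq_self]
    exact forall₂_congr fun s hs => by rw [hy s hs]
  refine ⟨fun x => e (Nat.find (hex x)), ⟨S, hST, hS, fun x => ?_⟩, fun x => ⟨(hm _).2, ?_⟩⟩
  · filter_upwards [(eventually_all_finite (finite_Iic (Nat.find (hex x)))).2
      fun n _ => hloc n x] with y hy
    congr 1
    rw [Nat.find_eq_iff]
    exact ⟨(hy _ (mem_Iic.2 le_rfl)).2 (Nat.find_spec (hex x)), fun n hn h' =>
      Nat.find_min (hex x) hn ((hy n hn.le).1 h')⟩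
  · obtain ⟨⟨D, z, a, b, c⟩, -⟩ := hm (Nat.find (hex x))
    refine ⟨D, a, b.trans hST, c.trans (fix_congr fun s hs => ?_)⟩
    have := Nat.find_spec (hex x)
    rw [c, fix_eq_self] at this
    exact (this s hs).symm

end Pool.Agent.Lib.Common.TreeIter
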