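import Mathlib
import Pool.Agent.Lib.Common.TreeIter.Basic

/-!
Conditions: causal continuous maps with countable support that eventually split.
-/

set_option autoImplicit false
set_option linter.unusedSectionVars false

namespace Pool.Agent.Lib.Common.TreeIter

open Set Filter Function

variable {I : Type} [LinearOrder I]

/-- The map induced at the spot `s`. -/
def sm (p : X I → X I) (s : W I) (x : X I) : V → V := fun v => p (update x s v) s

/-- Causal continuous maps. -/
def Cau (p : X I → X I) : Prop := ∀ s, CD (Iic s) (fun x => p x s)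

section Cau
variable {p q : X I → X I} {T : Set (W I)}

theorem Cau.causal (h : Cau p) {s : W I} {x y : X I} (hxy : ∀ t ≤ s, y t = x t) :
    p y s = p x s := (h s).congr hxy

theorem Cau.agree (h : Cau p) (hT : IsLowerSet T) {x y : X I} (hxy : ∀ t ∈ T, y t = x t) :
    ∀ s ∈ T, p y s = p x s := fun _ hs => h.causal fun t ht => hxy t (hT ht hs)

theorem Cau.agree_lt (h : Cau p) {s : W I} {x y : X I} (hxy : ∀ t < s, y t = x t) :
    ∀ t < s, p y t = p x t := h.agree (isLowerSet_Iio s) hxy

theorem Cau.tendsto (h : Cau p) (hT : IsLowerSet T) {S : Set (W I)} (hST : S ⊆ T)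
    (hS : S.Countable) : ∃ S' ⊆ T, S'.Countable ∧ ∀ (x : X I) (u : X I → Prop),
      (∀ᶠ z in nb S (p x), u z) → ∀ᶠ y in nb S' x, u (p y) := by
  obtain ⟨S', h1, h2, h3⟩ := CD.common (T := T) (Y := fun _ => V) hS (f := fun s x => p x s)
    fun s hs => (h s).mono fun t ht => hT ht (hST hs)
  refine ⟨S', h1, h2, fun x u ⟨D, a, b, c⟩ => ?_⟩
  filter_upwards [(eventually_all_finite a).2 fun s hs => h3 s (b hs) x] with y hy
  exact c _ hy

theorem Cau.ev (h : Cau p) (hT : IsLowerSet T) {x : X I} {u : X I → Prop}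
    (hu : ∀ᶠ z in nb T (p x), u z) : ∀ᶠ y in nb T x, u (p y) := by
  obtain ⟨D, a, b, c⟩ := hu
  filter_upwards [(eventually_all_finite a).2 fun s hs =>
    ((h s).mono fun t ht => hT ht (b hs)).ev x] with y hy
  exact c _ hy

theorem CD.comp {Y : Sort*} {f : X I → Y} (hf : CD T f) (hT : IsLowerSet T) (h : Cau p) :
    CD T (fun x => f (p x)) := by
  obtain ⟨S, h1, h2, h3⟩ := hf
  obtain ⟨S', a, b, c⟩ := h.tendsto hT h1 h2
  exact ⟨S', a, b, fun x => c x _ (h3 _)⟩

theorem Cau.comp (hp : Cau p) (hq : Cau q) : Cau (p ∘ q) :=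
  fun s => (hp s).comp (isLowerSet_Iic s) hq

theorem Cau.id : Cau (id : X I → X I) := fun _ => CD.spot (mem_Iic.2 le_rfl)

theorem Cau.update_lt (h : Cau p) {s t : W I} (hts : t < s) (x : X I) (v : V) :
    p (update x s v) t = p x t :=
  h.causal fun _ ht => update_of_ne (ht.trans_lt hts).ne _ _

theorem Cau.sm_congr (h : Cau p) {s : W I} {x y : X I} (hxy : ∀ t < s, y t = x t) :
    sm p s y = sm p s x := by
  funext v
  refine h.causal fun t ht => ?_
  rcases ht.lt_or_eq with ht | rfl
  · rw [update_of_ne ht.ne, update_of_ne ht.ne, hxy t ht]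
  · simp

theorem sm_self (p : X I → X I) (s : W I) (x : X I) : sm p s x (x s) = p x s := by
  simp [sm]

theorem sm_comp (hp : Cau p) (hq : Cau q) (s : W I) (x : X I) :
    sm (p ∘ q) s x = fun v => sm p s (q x) (sm q s x v) := by
  funext v
  refine hp.causal fun t ht => ?_
  rcases ht.lt_or_eq with ht | rfl
  · rw [update_of_ne ht.ne, hq.update_lt ht]
  · simp [sm]

theorem sm_of_id {s : W I} (h : ∀ x, p x s = x s) (x : X I) : sm p s x = fun v => v := by
  funext v
  simp [sm, h]

theorem isS_of_id {s : W I} (h : ∀ x, p x s = x s) (x : X I) : IsS (sm p s x) := by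
  rw [sm_of_id h]; exact IsS.id

theorem cd_update {s : W I} (hT : IsLowerSet T) {Y : Sort*} {f : X I → Y} (hf : CD T f)
    {a : X I → V} (ha : CD (Iio s) a) : CD T (fun x => f (update x s (a x))) := by
  refine hf.comp hT (p := fun x => update x s (a x)) fun t => ?_
  by_cases h : t = s
  · subst h
    simpa using ha.mono Iio_subset_Iic_self
  · simpa [update_of_ne h] using CD.spot (T := Iic t) (mem_Iic.2 le_rfl)

/-- A function of the spots up to `s`, with the value at `s` plugged in. -/
theorem cd_update_Iio {s : W I} {Y : Sort*} {f : X I → Y} (hf : CD (Iic s) f)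
    {a : X I → V} (ha : CD (Iio s) a) : CD (Iio s) (fun x => f (update x s (a x))) := by
  refine (cd_update (isLowerSet_Iic s) hf ha).of_dep fun x y hxy => hf.congr fun t ht => ?_
  rcases (mem_Iic.1 ht).lt_or_eq with ht | rfl
  · rw [update_of_ne ht.ne, update_of_ne ht.ne, hxy t ht]
  · simp only [update_self]
    exact ha.congr hxy

theorem Cau.cd_sm (h : Cau p) (s : W I) (v : V) : CD (Iio s) (fun x => sm p s x v) :=
  cd_update_Iio (h s) (CD.const _ v)

end Cau

/-- Conditions supported in `T`. -/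
structure Cnd (T : Set (W I)) (p : X I → X I) : Prop where
  cau : Cau p
  supp : {s | ∃ x, p x s ≠ x s}.Countable
  spl : ∀ α x, ∃ L, ∀ᶠ y in nb univ x, ∀ j ≥ L, IsS (sm p (sp α j) y)
  sup : ∀ x, ∀ s ∉ T, p x s = x s

section Cnd
variable {p q : X I → X I} {T T' : Set (W I)}

theorem Cnd.id : Cnd T (id : X I → X I) where
  cau := Cau.id
  supp := by simp
  spl := fun _ _ => ⟨0, Eventually.of_forall fun _ _ _ => isS_of_id (fun _ => rfl) _⟩
  sup := fun _ _ _ => rfl

theorem Cnd.mono (h : Cnd T p) (hT : T ⊆ T') : Cnd T' p :=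
  ⟨h.cau, h.supp, h.spl, fun x s hs => h.sup x s fun h' => hs (hT h')⟩

theorem Cnd.comp (hp : Cnd T p) (hq : Cnd T q) : Cnd T (p ∘ q) where
  cau := hp.cau.comp hq.cau
  supp := (hp.supp.union hq.supp).mono fun s ⟨x, hx⟩ => by
    by_contra hc
    simp only [mem_union, mem_ofPred_eq, not_or, not_exists, not_not] at hc
    exact hx ((hc.1 _).trans (hc.2 _))
  spl := fun α x => by
    obtain ⟨L, hL⟩ := hp.spl α (q x)
    obtain ⟨L', hL'⟩ := hq.spl α x
    refine ⟨max L L', ?_⟩
    filter_upwards [hq.cau.ev isLowerSet_univ hL, hL'] with y a b j hj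
    rw [sm_comp hp.cau hq.cau]
    exact (a j (le_of_max_le_left hj)).comp (b j (le_of_max_le_right hj))
  sup := fun x s hs => (hp.sup _ s hs).trans (hq.sup _ s hs)

theorem cau_fix (D : Set (W I)) (z : X I) : Cau (fix D z) := fun s => by
  by_cases hs : s ∈ D
  · simpa [fix_of_mem hs] using CD.const (Iic s) (z s)
  · simpa [fix_of_notMem hs] using CD.spot (T := Iic s) (mem_Iic.2 le_rfl)

theorem exists_level {D : Set (W I)} (hD : D.Finite) : ∃ L, ∀ α, ∀ j ≥ L, sp α j ∉ D := by
  obtain ⟨L, hL⟩ := (hD.image lv).bddAbove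
  refine ⟨L + 1, fun α j hj h => ?_⟩
  have := hL (mem_image_of_mem lv h)
  simp at this
  omega

theorem cnd_fix {D : Set (W I)} (hD : D.Finite) (hT : D ⊆ T) (z : X I) : Cnd T (fix D z) where
  cau := cau_fix D z
  supp := hD.countable.mono fun s ⟨x, hx⟩ => by
    by_contra hc
    exact hx (fix_of_notMem hc _ _)
  spl := fun α x => by
    obtain ⟨L, hL⟩ := exists_level hD
    exact ⟨L, Eventually.of_forall fun y j hj =>
      isS_of_id (fun _ => fix_of_notMem (hL α j hj) _ _) _⟩
  sup := fun x s hs => fix_of_notMem (fun h => hs (hT h)) _ _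

open Classical in
/-- Using `p` on the spots of `A` and `q` elsewhere. -/
noncomputable def patch (A : Set (W I)) (p q : X I → X I) : X I → X I :=
  fun x s => if s ∈ A then p x s else q x s

theorem patch_of_mem {A : Set (W I)} {s : W I} (h : s ∈ A) (x : X I) :
    patch A p q x s = p x s := if_pos h

theorem patch_of_notMem {A : Set (W I)} {s : W I} (h : s ∉ A) (x : X I) :
    patch A p q x s = q x s := if_neg h

theorem sm_patch_of_mem {A : Set (W I)} {s : W I} (h : s ∈ A) (x : X I) :
    sm (patch A p q) s x = sm p s x := funext fun _ => patch_of_mem h _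

theorem sm_patch_of_notMem {A : Set (W I)} {s : W I} (h : s ∉ A) (x : X I) :
    sm (patch A p q) s x = sm q s x := funext fun _ => patch_of_notMem h _

theorem Cnd.patch {T₁ T₂ : Set (W I)} (A : Set (W I)) (hp : Cnd T₁ p) (hq : Cnd T₂ q)
    (h1 : A ∩ T₁ ⊆ T) (h2 : T₂ \ A ⊆ T) : Cnd T (patch A p q) where
  cau := fun s => by
    by_cases hs : s ∈ A
    · simpa [patch_of_mem hs] using hp.cau s
    · simpa [patch_of_notMem hs] using hq.cau s
  supp := (hp.supp.union hq.supp).mono fun s ⟨x, hx⟩ => by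
    by_cases hs : s ∈ A
    · exact Or.inl ⟨x, by rwa [patch_of_mem hs] at hx⟩
    · exact Or.inr ⟨x, by rwa [patch_of_notMem hs] at hx⟩
  spl := fun α x => by
    obtain ⟨L, hL⟩ := hp.spl α x
    obtain ⟨L', hL'⟩ := hq.spl α x
    refine ⟨max L L', ?_⟩
    filter_upwards [hL, hL'] with y a b j hj
    by_cases hs : sp α j ∈ A
    · rw [sm_patch_of_mem hs]; exact a j (le_of_max_le_left hj)
    · rw [sm_patch_of_notMem hs]; exact b j (le_of_max_le_right hj)
  sup := fun x s hs => by
    by_cases h : s ∈ A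
    · rw [patch_of_mem h]; exact hp.sup x s fun h' => hs (h1 ⟨h, h'⟩)
    · rw [patch_of_notMem h]; exact hq.sup x s fun h' => hs (h2 ⟨h', h⟩)

/-- The part below `s₀`. -/
noncomputable def res (s₀ : W I) (p : X I → X I) : X I → X I := patch (Iio s₀) p id

/-- The part from `s₀` on. -/
noncomputable def up (s₀ : W I) (p : X I → X I) : X I → X I := patch (Iio s₀) id p

theorem res_of_lt {s₀ s : W I} (h : s < s₀) (x : X I) : res s₀ p x s = p x s :=
  patch_of_mem (A := Iio s₀) h x
theorem res_of_le {s₀ s : W I} (h : s₀ ≤ s) (x : X I) : res s₀ p x s = x s :=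
  patch_of_notMem (A := Iio s₀) (not_lt.2 h) x
theorem up_of_lt {s₀ s : W I} (h : s < s₀) (x : X I) : up s₀ p x s = x s :=
  patch_of_mem (A := Iio s₀) h x
theorem up_of_le {s₀ s : W I} (h : s₀ ≤ s) (x : X I) : up s₀ p x s = p x s :=
  patch_of_notMem (A := Iio s₀) (not_lt.2 h) x

theorem sm_up_of_le {s₀ s : W I} (h : s₀ ≤ s) (x : X I) : sm (up s₀ p) s x = sm p s x :=
  sm_patch_of_notMem (A := Iio s₀) (not_lt.2 h) x

theorem Cnd.res (hp : Cnd T p) (s₀ : W I) : Cnd (Iio s₀) (res s₀ p) :=
  Cnd.patch (T₂ := ∅) _ hp Cnd.id inter_subset_left (by simp)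

theorem Cnd.up (hp : Cnd T p) (s₀ : W I) : Cnd T (up s₀ p) :=
  Cnd.patch (T₁ := ∅) _ Cnd.id hp (by simp) sdiff_subset

theorem res_comp_up (hp : Cau p) (s₀ : W I) : res s₀ p ∘ up s₀ p = p := by
  funext x s
  rcases lt_or_ge s s₀ with h | h
  · rw [comp_apply, res_of_lt h]
    exact hp.causal fun t ht => up_of_lt (ht.trans_lt h) x
  · rw [comp_apply, res_of_le h, up_of_le h]

/-- Commuting a lower map with an upper map. -/
theorem comp_up_comp {s₀ : W I} (hq : Cnd (Iio s₀) q) {u : X I → X I}
    (hu : ∀ x, ∀ s < s₀, u x s = x s) : q ∘ up s₀ (u ∘ q) = u ∘ q := by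
  funext x s
  rcases lt_or_ge s s₀ with h | h
  · rw [comp_apply, comp_apply, hu _ _ h]
    exact hq.cau.causal fun t ht => up_of_lt (ht.trans_lt h) x
  · rw [comp_apply, hq.sup _ _ (not_lt.2 h), up_of_le h]

/-- Mixing conditions from `s₀` on along a function of the spots below `s₀`. -/
theorem cnd_mix {J : Type*} {s₀ : W I} {σ : X I → J} (hσ : CD (Iio s₀) σ) {u : J → X I → X I}
    (hu : ∀ x, Cnd T (u (σ x))) : Cnd T (up s₀ fun x => u (σ x) x) where
  cau := fun s => by
    rcases lt_or_ge s s₀ with h | h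
    · simpa [up_of_lt h] using CD.spot (T := Iic s) (mem_Iic.2 le_rfl)
    · simp only [up_of_le h]
      exact CD.cases (hσ.mono fun t ht => (ht.trans_le h).le) (F := fun j x => u j x s)
        fun x => (hu x).cau s
  supp := by
    refine (hσ.countable_range.biUnion (t := fun j _ => {s | ∃ x, u j x s ≠ x s}) ?_).mono ?_
    · rintro _ ⟨x, rfl⟩
      exact (hu x).supp
    · rintro s ⟨x, hx⟩
      rcases lt_or_ge s s₀ with h | h
      · exact absurd (up_of_lt h x) hx
      · rw [up_of_le h] at hx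
        exact mem_iUnion₂.2 ⟨σ x, ⟨x, rfl⟩, x, hx⟩
  spl := fun α x => by
    obtain ⟨L, hL⟩ := (hu x).spl α x
    obtain ⟨L', hL'⟩ := nb_update (nb_mono (subset_univ _) (hσ.ev x)) α
    refine ⟨max L L', ?_⟩
    filter_upwards [hL, hL'] with y a b j hj
    rcases lt_or_ge (sp α j) s₀ with h | h
    · exact isS_of_id (fun _ => up_of_lt h _) _
    · rw [sm_up_of_le h]
      have : sm (fun x => u (σ x) x) (sp α j) y = sm (u (σ x)) (sp α j) y := by
        funext v
        simp only [sm, b j (le_of_max_le_right hj) v]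
      rw [this]
      exact a j (le_of_max_le_left hj)
  sup := fun x s hs => by
    rcases lt_or_ge s s₀ with h | h
    · exact up_of_lt h x
    · rw [up_of_le h]; exact (hu x).sup x s hs

theorem sm_mix {J : Type*} {s₀ s : W I} {σ : X I → J} (hσ : CD (Iio s₀) σ) (u : J → X I → X I)
    (h : s₀ ≤ s) (x : X I) : sm (up s₀ fun x => u (σ x) x) s x = sm (u (σ x)) s x := by
  rw [sm_up_of_le h]
  funext v
  have : σ (update x s v) = σ x := hσ.congr fun t ht => update_of_ne (ht.trans_le h).ne _ _
  simp only [sm, this]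

/-- A map acting on a single spot. -/
def one (s : W I) (a : X I → V → V) : X I → X I := fun x => update x s (a x (x s))

theorem one_self (s : W I) (a : X I → V → V) (x : X I) : one s a x s = a x (x s) := by
  simp [one]

theorem one_of_ne {s t : W I} (h : t ≠ s) (a : X I → V → V) (x : X I) : one s a x t = x t :=
  update_of_ne h _ _

theorem cnd_one {s : W I} {a : X I → V → V} (ha : ∀ v, CD (Iio s) fun x => a x v) (hs : s ∈ T) :
    Cnd T (one s a) where
  cau := fun t => by
    by_cases h : t = s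
    · subst h
      simp only [one_self]
      exact CD.cases (CD.spot (mem_Iic.2 le_rfl)) (F := fun v x => a x v)
        fun x => (ha _).mono Iio_subset_Iic_self
    · simpa [one_of_ne h] using CD.spot (T := Iic t) (mem_Iic.2 le_rfl)
  supp := (countable_singleton s).mono fun t ⟨x, hx⟩ => by
    by_contra hc
    exact hx (one_of_ne hc _ _)
  spl := fun α x => ⟨lv s + 1, Eventually.of_forall fun y j hj => isS_of_id (fun _ => one_of_ne
    (by rintro rfl; simp at hj) _ _) _⟩
  sup := fun x t ht => one_of_ne (by rintro rfl; exact ht hs) _ _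

theorem sm_one {s : W I} {a : X I → V → V} (ha : ∀ v, CD (Iio s) fun x => a x v) (x : X I) :
    sm (one s a) s x = a x := by
  funext v
  simp only [sm, one_self, update_self]
  exact (ha v).congr fun t ht => update_of_ne ht.ne _ _

end Cnd

/-- The fusion order: splitting is kept on the coordinates in `F`, and the values in `U` are kept
on the first `n` levels of these coordinates. -/
def Frz (U : Set V) (F : Set I) (n : ℕ) (q : X I → X I) : Prop :=
  ∀ α ∈ F, (∀ i x, IsS (sm q (sp α i) x)) ∧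
    ∀ i < n, ∀ x, x (sp α i) ∈ U → q x (sp α i) = x (sp α i)

theorem Frz.comp {U : Set V} {F : Set I} {n : ℕ} {p q : X I → X I} (hp : Frz U F n p)
    (hq : Frz U F n q) (cp : Cau p) (cq : Cau q) : Frz U F n (p ∘ q) := fun α hα =>
  ⟨fun i x => by
    rw [sm_comp cp cq]
    exact ((hp α hα).1 i _).comp ((hq α hα).1 i _),
  fun i hi x hx => by
    have := (hq α hα).2 i hi x hx
    rw [comp_apply, (hp α hα).2 i hi _ (this ▸ hx), this]⟩

theorem Frz.mono {U U' : Set V} {F F' : Set I} {n n' : ℕ} {q : X I → X I} (h : Frz U F n q)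
    (hU : U' ⊆ U) (hF : F' ⊆ F) (hn : n' ≤ n) : Frz U' F' n' q := fun α hα =>
  ⟨(h α (hF hα)).1, fun i hi x hx => (h α (hF hα)).2 i (hi.trans_le hn) x (hU hx)⟩

theorem frz_of_id {U : Set V} {F : Set I} {n : ℕ} {q : X I → X I}
    (h : ∀ α ∈ F, ∀ i x, q x (sp α i) = x (sp α i)) : Frz U F n q := fun α hα =>
  ⟨fun i x => isS_of_id (h α hα i) x, fun i _ x _ => h α hα i x⟩

theorem Frz.union {U : Set V} {F F' : Set I} {n : ℕ} {q : X I → X I} (h : Frz U F n q)
    (h' : Frz U F' n q) : Frz U (F ∪ F') n q := fun α hα => hα.elim (h α) (h' α)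

end Pool.Agent.Lib.Common.TreeIter
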