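import Mathlib
import Pool.Agent.Lib.Common.TreeIter.Cond

/-!
Counting conditions, and the closure argument replacing the chain condition.
-/

set_option autoImplicit false
set_option linter.unusedSectionVars false

namespace Pool.Agent.Lib.Common.TreeIter

open Set Filter Function Cardinal

variable {I : Type} [LinearOrder I]

theorem card_le_of_cover {Z Z' : Type} {T : Set Z'} (hT : #T ≤ 𝔠) {A : Set Z}
    {B : Set Z' → Set Z} (h : ∀ z ∈ A, ∃ S ⊆ T, S.Countable ∧ z ∈ B S)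
    (hB : ∀ S ⊆ T, S.Countable → #(B S) ≤ 𝔠) : #A ≤ 𝔠 := by
  have h1 : A ⊆ ⋃ S : {S : Set Z' // S ⊆ T ∧ #S ≤ ℵ₀}, B S.1 := fun z hz =>
    let ⟨S, a, b, c⟩ := h z hz
    mem_iUnion.2 ⟨⟨S, a, b.le_aleph0⟩, c⟩
  refine (mk_le_mk_of_subset h1).trans ((mk_iUnion_le _).trans ?_)
  have h2 : #{S : Set Z' // S ⊆ T ∧ #S ≤ ℵ₀} ≤ 𝔠 := (mk_bounded_subset_le T ℵ₀).trans (by
    rw [← continuum_power_aleph0]
    exact power_le_power_right (max_le hT aleph0_le_continuum))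
  have h3 : ⨆ S : {S : Set Z' // S ⊆ T ∧ #S ≤ ℵ₀}, #(B S.1) ≤ 𝔠 :=
    ciSup_le' fun S => hB S.1 S.2.1 (le_aleph0_iff_set_countable.1 S.2.2)
  exact (mul_le_mul' h2 h3).trans_eq continuum_mul_self

theorem card_fun_le {J Y : Type} [Countable J] (hY : #Y ≤ 𝔠) : #(J → Y) ≤ 𝔠 := by
  rw [← power_def, ← continuum_power_aleph0]
  exact (power_le_power_right hY).trans (power_le_power_left continuum_ne_zero mk_le_aleph0)

theorem card_cd {T : Set (W I)} (hT : #T ≤ 𝔠) {Y : Type} [Countable Y] :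
    #{f : X I → Y | CD T f} ≤ 𝔠 := by
  refine card_le_of_cover hT (B := fun S => {f | ∀ x, ∀ᶠ y in nb S x, f y = f x})
    (fun f hf => hf) fun S _ hS => ?_
  have := (countable_fix hS).to_subtype
  refine le_trans (mk_le_of_injective (f := fun f (g : {g | ∃ D z, D.Finite ∧ D ⊆ S ∧
    g = fix D z}) => f.1 (g.1 default)) fun f f' h => Subtype.ext (funext fun x => ?_))
    (card_fun_le (mk_le_aleph0.trans aleph0_le_continuum))
  obtain ⟨D, a, b, c⟩ := (f.2 x).and (f'.2 x)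
  obtain ⟨c1, c2⟩ := c (fix D x default) fun s hs => fix_of_mem hs _ _
  rw [← c1, ← c2]
  exact congrFun h ⟨fix D x, D, x, a, b, rfl⟩

theorem card_cnd {T : Set (W I)} (hT : #T ≤ 𝔠) (hl : IsLowerSet T) :
    #{p : X I → X I | Cnd T p} ≤ 𝔠 := by
  refine card_le_of_cover hT (B := fun S => {p | Cau p ∧ ∀ x, ∀ s ∉ S, p x s = x s})
    (fun p hp => ⟨{s | ∃ x, p x s ≠ x s}, fun s ⟨x, hx⟩ => ?_, hp.supp, hp.cau, fun x s hs => ?_⟩) fun S hST hS => ?_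
  · by_contra hc
    exact hx (hp.sup x s hc)
  · by_contra hc
    exact hs ⟨x, hc⟩
  · have := hS.to_subtype
    refine le_trans (mk_le_of_injective (f := fun p (s : S) =>
      (⟨fun x => p.1 x s, (p.2.1 s).mono fun t ht => hl ht (hST s.2)⟩ : {f : X I → V | CD T f}))
      fun p p' h => Subtype.ext (funext fun x => funext fun s => ?_)) (card_fun_le (card_cd hT))
    by_cases hs : s ∈ S
    · exact congrFun (congrArg Subtype.val (congrFun h ⟨s, hs⟩)) x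
    · rw [p.2.2 x s hs, p'.2.2 x s hs]

theorem card_Iio_sp {β : I} (h : #(Iio β) ≤ 𝔠) : #(Iio (sp β 0)) ≤ 𝔠 := by
  refine le_trans (mk_le_of_injective (β := Iio β × ℕ)
    (f := fun s => (⟨co s.1, lt_sp_zero.1 s.2⟩, lv s.1)) fun s t hst => Subtype.ext ?_) ?_
  · simp only [Prod.mk.injEq, Subtype.mk.injEq] at hst
    rw [← sp_co_lv s.1, ← sp_co_lv t.1, hst.1, hst.2]
  · simp only [mk_prod, lift_id, mk_nat]
    exact (mul_le_mul' h aleph0_le_continuum).trans_eq continuum_mul_self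

theorem exists_bound_ord {κ : Cardinal.{0}} (hκ : κ.IsRegular) (A : Set κ.ord.ToType)
    (hA : #A < κ) : ∃ γ, ∀ α ∈ A, α < γ := by
  refine not_isCofinal_iff.1 fun h => ?_
  have := Order.cof_le h
  rw [Ordinal.cof_toType, hκ.cof_ord] at this
  exact not_lt.2 this hA

/-- The length of the iteration is the successor of the continuum. -/
structure Long (I : Type) [LinearOrder I] : Prop where
  small : ∀ β : I, #(Iio β) ≤ 𝔠
  bdd : ∀ A : Set I, #A ≤ 𝔠 → ∃ γ, ∀ α ∈ A, α < γ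

theorem long_succ : Long (Order.succ 𝔠).ord.ToType :=
  ⟨fun β => Order.lt_succ_iff.1 (by simpa using mk_Iio_lt β (by simp)), fun A hA =>
    exists_bound_ord (isRegular_succ aleph0_le_continuum) A (Order.lt_succ_iff.2 hA)⟩

theorem Long.bdd_spots (h : Long I) {S : Set (W I)} (hS : S.Countable) :
    ∃ γ, S ⊆ Iio (sp γ 0) :=
  let ⟨γ, hγ⟩ := h.bdd (co '' S) ((hS.image _).le_aleph0.trans aleph0_le_continuum)
  ⟨γ, fun s hs => lt_sp_zero.2 (hγ _ ⟨s, hs, rfl⟩)⟩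

theorem Long.cd (h : Long I) {J : Type} [Countable J] {Y : Sort*} {f : J → X I → Y}
    (hf : ∀ j, CD univ (f j)) : ∃ γ, ∀ j, CD (Iio (sp γ 0)) (f j) := by
  obtain ⟨S, -, a, b⟩ := CD.common (countable_univ (α := J)) (f := f) fun j _ => hf j
  obtain ⟨γ, hγ⟩ := h.bdd_spots a
  exact ⟨γ, fun j => ⟨S, hγ, a, b j trivial⟩⟩

theorem Long.cnd (h : Long I) {p : X I → X I} (hp : Cnd univ p) : ∃ γ, Cnd (Iio (sp γ 0)) p := by
  obtain ⟨γ, hγ⟩ := h.bdd_spots hp.supp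
  refine ⟨γ, hp.cau, hp.supp, hp.spl, fun x s hs => ?_⟩
  by_contra hc
  exact hs (hγ ⟨x, hc⟩)

theorem sp_zero_mono {β γ : I} (h : β ≤ γ) : Iio (sp β 0) ⊆ Iio (sp γ 0) :=
  Iio_subset_Iio (sp_le_sp.2 (h.lt_or_eq.imp id fun h => ⟨h, le_rfl⟩))

theorem Long.closure [WellFoundedLT I] (h : Long I) (g : I → I) :
    ∃ α, ∀ C ⊆ Iio α, C.Countable → ∃ β, C ⊆ Iio β ∧ g β < α := by
  have hJ : #(Order.succ ℵ₀).ord.ToType ≤ 𝔠 := by
    rw [mk_ord_toType]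
    exact Order.succ_le_of_lt aleph0_lt_continuum
  have : Nonempty I := let ⟨γ, _⟩ := h.bdd ∅ (by simp); ⟨γ⟩
  choose! bd hbd using h.bdd
  let a : (Order.succ ℵ₀).ord.ToType → I := (wellFounded_lt).fix fun i ih =>
    max (bd (range fun j : Iio i => ih j.1 j.2)) (g (bd (range fun j : Iio i => ih j.1 j.2)))
  have ha : ∀ i, a i = max (bd (range fun j : Iio i => a j.1))
      (g (bd (range fun j : Iio i => a j.1))) := fun i => WellFounded.fix_eq _ _ i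
  obtain ⟨α, hα, hmin⟩ := (wellFounded_lt (α := I)).has_min {γ | ∀ i, a i < γ}
    ⟨_, fun i => hbd _ (mk_range_le.trans hJ) _ ⟨i, rfl⟩⟩
  refine ⟨α, fun C hC hc => ?_⟩
  have hex : ∀ c ∈ C, ∃ j, c ≤ a j := fun c hc' => by
    by_contra hcon
    push Not at hcon
    exact hmin c hcon (hC hc')
  have : Nonempty (Order.succ ℵ₀).ord.ToType :=
    let ⟨γ, _⟩ := exists_bound_ord (isRegular_succ (le_refl ℵ₀)) ∅ (by simp); ⟨γ⟩
  choose! j hj using hex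
  obtain ⟨i, hi⟩ := exists_bound_ord (isRegular_succ le_rfl) (j '' C)
    ((hc.image _).le_aleph0.trans_lt (Order.lt_succ _))
  refine ⟨bd (range fun j : Iio i => a j.1), fun c hc' => (hj c hc').trans_lt
    (hbd _ (mk_range_le.trans ((mk_set_le _).trans hJ)) _ ⟨⟨j c, hi _ ⟨c, hc', rfl⟩⟩, rfl⟩), ?_⟩
  exact (le_max_right _ _).trans_lt (ha i ▸ hα i)

/-- Continuum many dense tasks are all handled below some coordinate. -/
theorem Long.reflect [WellFoundedLT I] (h : Long I) {ι : Type} (hι : #ι ≤ 𝔠)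
    {𝒟 : ι → I → (X I → X I) → Prop} (hm : ∀ i β γ p, β ≤ γ → 𝒟 i β p → 𝒟 i γ p)
    (hd : ∀ i p, Cnd univ p → ∃ γ w, Cnd univ w ∧ 𝒟 i γ (p ∘ w)) :
    ∃ α, ∀ i q, Cnd (Iio (sp α 0)) q → ∃ w, Cnd (Iio (sp α 0)) w ∧ 𝒟 i α (q ∘ w) := by
  have h1 : ∀ i p, Cnd univ p → ∃ γ w, Cnd (Iio (sp γ 0)) w ∧ 𝒟 i γ (p ∘ w) := fun i p hp => by
    obtain ⟨γ, w, a, b⟩ := hd i p hp
    obtain ⟨γ', c⟩ := h.cnd a
    exact ⟨max γ γ', w, c.mono (sp_zero_mono (le_max_right _ _)), hm _ _ _ _ (le_max_left _ _) b⟩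
  have h2 : ∀ β, ∃ γ, ∀ i p, Cnd (Iio (sp β 0)) p →
      ∃ w, Cnd (Iio (sp γ 0)) w ∧ 𝒟 i γ (p ∘ w) := fun β => by
    choose G hG using fun c : ι × {p : X I → X I | Cnd (Iio (sp β 0)) p} =>
      h1 c.1 c.2.1 (c.2.2.mono (subset_univ _))
    obtain ⟨γ, hγ⟩ := h.bdd (range G) (mk_range_le.trans (by
      simp only [mk_prod, lift_id]
      exact (mul_le_mul' hι (card_cnd (card_Iio_sp (h.small β)) (isLowerSet_Iio _))).trans_eq
        continuum_mul_self))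
    refine ⟨γ, fun i p hp => ?_⟩
    obtain ⟨w, a, b⟩ := hG (i, ⟨p, hp⟩)
    have := (hγ _ ⟨(i, ⟨p, hp⟩), rfl⟩).le
    exact ⟨w, a.mono (sp_zero_mono this), hm _ _ _ _ this b⟩
  choose g hg using h2
  obtain ⟨α, hα⟩ := h.closure g
  refine ⟨α, fun i q hq => ?_⟩
  obtain ⟨β, a, b⟩ := hα (co '' {s | ∃ x, q x s ≠ x s}) (by
    rintro _ ⟨s, ⟨x, hx⟩, rfl⟩
    by_contra hc
    exact hx (hq.sup x s fun h' => hc (lt_sp_zero.1 h'))) (hq.supp.image _)
  obtain ⟨w, c, d⟩ := hg β i q ⟨hq.cau, hq.supp, hq.spl, fun x s hs => by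
    by_contra hc
    exact hs (lt_sp_zero.2 (a ⟨s, ⟨x, hc⟩, rfl⟩))⟩
  exact ⟨w, c.mono (sp_zero_mono b.le), hm _ _ _ _ b.le d⟩

end Pool.Agent.Lib.Common.TreeIter
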