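import Mathlib
import Pool.Agent.Lib.Common.TreeIter.Cond

/-!
Fusion: infinite compositions of conditions.
-/

set_option autoImplicit false
set_option linter.unusedSectionVars false

namespace Pool.Agent.Lib.Common.TreeIter

open Set Filter Function

variable {I : Type} [LinearOrder I] [WellFoundedLT I]

/-- The composition of `q n, ..., q (n + m - 1)`. -/
def cmp (q : ℕ → X I → X I) : ℕ → ℕ → X I → X I
  | _, 0 => id
  | n, m + 1 => q n ∘ cmp q (n + 1) m

theorem cmp_cau {q : ℕ → X I → X I} (h : ∀ n, Cau (q n)) (m : ℕ) : ∀ n, Cau (cmp q n m) := by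
  induction m with
  | zero => exact fun _ => Cau.id
  | succ m ih => exact fun n => (h n).comp (ih _)

theorem cmp_fix {q : ℕ → X I → X I} {s : W I} {v : V} {N : ℕ}
    (h : ∀ n ≥ N, ∀ x, x s = v → q n x s = v) (m : ℕ) :
    ∀ n ≥ N, ∀ x, x s = v → cmp q n m x s = v := by
  induction m with
  | zero => exact fun _ _ _ hx => hx
  | succ m ih => exact fun n hn x hx => h n hn _ (ih _ (by omega) x hx)

theorem cmp_frz {q : ℕ → X I → X I} (h : ∀ n, Cau (q n)) {U : Set V} {F : Set I} {k N : ℕ}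
    (hf : ∀ n ≥ N, Frz U F k (q n)) (m : ℕ) : ∀ n ≥ N, Frz U F k (cmp q n m) := by
  induction m with
  | zero => exact fun _ _ => frz_of_id fun _ _ _ _ => rfl
  | succ m ih => exact fun n hn => (hf n hn).comp (ih _ (by omega)) (h n) (cmp_cau h _ _)

theorem cmp_stab {q : ℕ → X I → X I} (h : ∀ n, Cau (q n))
    (hN : ∀ s v, ∃ N, ∀ n ≥ N, ∀ x, x s = v → q n x s = v) (s : W I) :
    ∀ n x, ∃ v M, ∀ᶠ y in nb univ x, ∀ m ≥ M, cmp q n m y s = v := by
  induction s using WellFoundedLT.induction with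
  | ind s ih =>
    intro n x
    obtain ⟨N, hN⟩ := hN s (x s)
    have key : ∀ d n, N ≤ n + d → ∃ v M, ∀ᶠ y in nb univ x, ∀ m ≥ M, cmp q n m y s = v := by
      intro d
      induction d with
      | zero =>
        intro n hn
        refine ⟨x s, 0, (nb_spot (mem_univ s) x).mono fun y hy m _ => cmp_fix hN m n hn y hy⟩
      | succ d ihd =>
        intro n hn
        have hle : ∀ t, ∃ v M, t ≤ s → ∀ᶠ y in nb univ x, ∀ m ≥ M, cmp q (n + 1) m y t = v := by
          intro t
          rcases lt_trichotomy t s with ht | rfl | ht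
          · obtain ⟨v, M, hv⟩ := ih t ht (n + 1) x
            exact ⟨v, M, fun _ => hv⟩
          · obtain ⟨v, M, hv⟩ := ihd (n + 1) (by omega)
            exact ⟨v, M, fun _ => hv⟩
          · exact ⟨default, 0, fun h' => absurd ht (not_lt.2 h')⟩
        choose z M hz using hle
        obtain ⟨D, a, b, c⟩ := (h n s).ev z
        obtain ⟨M', hM'⟩ := (a.image M).bddAbove
        refine ⟨q n z s, M' + 1, ?_⟩
        filter_upwards [(eventually_all_finite a).2 fun t ht => hz t (b ht)] with y hy m hm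
        obtain ⟨m, rfl⟩ : ∃ m', m = m' + 1 := ⟨m - 1, by omega⟩
        exact c _ fun t ht => hy t ht m ((hM' (mem_image_of_mem M ht)).trans (by omega))
    exact key N n (by omega)

theorem exists_limit {T : Set (W I)} {q : ℕ → X I → X I} (hq : ∀ n, Cnd T (q n))
    {U : ℕ → Set V} (hU : Monotone U) (hU' : ∀ v, ∃ n, v ∈ U n) {F : ℕ → Set I} (hF : Monotone F)
    {k : ℕ} (hf : ∀ n, Frz (U n) (F n) (k + n) (q n))
    (hcov : ∀ n s, (∃ x, q n x s ≠ x s) → ∃ m, co s ∈ F m) :
    ∃ r : ℕ → X I → X I, ∀ n, Cnd T (r n) ∧ r n = q n ∘ r (n + 1) ∧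
      Frz (U n) (F n) (k + n) (r n) := by
  have hc : ∀ n, Cau (q n) := fun n => (hq n).cau
  have hN : ∀ s v, ∃ N, ∀ n ≥ N, ∀ x, x s = v → q n x s = v := by
    intro s v
    by_cases hs : ∃ m, co s ∈ F m
    · obtain ⟨m, hm⟩ := hs
      obtain ⟨m', hm'⟩ := hU' v
      refine ⟨m + m' + lv s + 1, fun n hn x hx => ?_⟩
      have := (hf n _ (hF (by omega : m ≤ n) hm)).2 (lv s) (by omega) x
        (by rw [sp_co_lv, hx]; exact hU (by omega : m' ≤ n) hm')
      rwa [sp_co_lv, hx] at this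
    · refine ⟨0, fun n _ x hx => ?_⟩
      by_contra hne
      exact hs (hcov n s ⟨x, hx ▸ hne⟩)
  choose r M hr using fun n x s => cmp_stab hc hN s n x
  have hr0 : ∀ n x s, ∀ᶠ m in atTop, cmp q n m x s = r n x s := fun n x s =>
    eventually_atTop.2 ⟨_, nb_self (hr n x s)⟩
  have huniq : ∀ n x s v, (∀ᶠ m in atTop, cmp q n m x s = v) → r n x s = v := fun n x s v h =>
    let ⟨_, a, b⟩ := ((hr0 n x s).and h).exists; a.symm.trans b
  have hcau : ∀ n, Cau (r n) := by
    intro n s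
    obtain ⟨S, h1, h2, h3⟩ := CD.common (T := Iic s) (Y := fun _ => V) (countable_univ (α := ℕ))
      (f := fun m x => cmp q n m x s) fun m _ => cmp_cau hc m n s
    refine ⟨S, h1, h2, fun x => nb_restrict (S' := univ) ?_ fun y z hyz hy => ?_⟩
    · filter_upwards [hr n x s] with y hy using huniq n y s _ (eventually_atTop.2 ⟨_, hy⟩)
    · rw [← hy]
      refine huniq n z s _ ((hr0 n y s).mono fun m hm => ?_)
      exact (nb_of_agree (h3 m trivial y) fun t ht => (hyz t ht).symm).trans hm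
  have hrec : ∀ n, r n = q n ∘ r (n + 1) := by
    intro n
    funext x s
    obtain ⟨D, a, -, c⟩ := (hc n s).ev (r (n + 1) x)
    refine huniq n x s _ ?_
    obtain ⟨M', hM'⟩ := eventually_atTop.1
      ((eventually_all_finite a).2 fun t _ => hr0 (n + 1) x t)
    refine eventually_atTop.2 ⟨M' + 1, fun m hm => ?_⟩
    obtain ⟨m, rfl⟩ : ∃ m', m = m' + 1 := ⟨m - 1, by omega⟩
    exact c _ (hM' m (by omega))
  have hfrz : ∀ n, Frz (U n) (F n) (k + n) (r n) := by
    intro n α hα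
    have hcf := fun m => cmp_frz hc (N := n)
      (fun n' hn' => (hf n').mono (hU hn') (hF hn') (by omega : k + n ≤ k + n')) m n le_rfl α hα
    refine ⟨fun i x => IsS.closed fun v w => ?_, fun i hi x hx =>
      huniq _ _ _ _ (Eventually.of_forall fun m => (hcf m).2 i hi x hx)⟩
    obtain ⟨m, a, b⟩ := ((hr0 n (update x (sp α i) v) (sp α i)).and
      (hr0 n (update x (sp α i) w) (sp α i))).exists
    exact ⟨_, (hcf m).1 i x, a.symm, b.symm⟩
  have hid : ∀ n s, (∀ m x, q m x s = x s) → ∀ x, r n x s = x s := fun n s h x =>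
    huniq _ _ _ _ (Eventually.of_forall fun m =>
      cmp_fix (N := 0) (fun n _ y hy => (h n y).trans hy) m n (Nat.zero_le _) x rfl)
  refine ⟨r, fun n => ⟨⟨hcau n, ?_, fun α => ?_, fun x s hs => ?_⟩, hrec n, hfrz n⟩⟩
  · refine (countable_iUnion fun m => (hq m).supp).mono fun s ⟨x, hx⟩ => ?_
    by_contra hcon
    simp only [mem_iUnion, mem_ofPred_eq, not_exists, not_not] at hcon
    exact hx (hid n s hcon x)
  · by_cases hα : ∃ m, α ∈ F m
    · obtain ⟨m, hm⟩ := hα
      have key : ∀ d n, α ∈ F (n + d) →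
          ∀ x, ∃ L, ∀ᶠ y in nb univ x, ∀ j ≥ L, IsS (sm (r n) (sp α j) y) := by
        intro d
        induction d with
        | zero => exact fun n hn x => ⟨0, Eventually.of_forall fun y j _ => (hfrz n α hn).1 j y⟩
        | succ d ih =>
          intro n hn x
          obtain ⟨L, hL⟩ := (hq n).spl α (r (n + 1) x)
          obtain ⟨L', hL'⟩ := ih (n + 1) (by rwa [Nat.add_right_comm]) x
          refine ⟨max L L', ?_⟩
          filter_upwards [(hcau (n + 1)).ev isLowerSet_univ hL, hL'] with y a b j hj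
          rw [hrec n, sm_comp (hc n) (hcau _)]
          exact (a j (le_of_max_le_left hj)).comp (b j (le_of_max_le_right hj))
      exact key m n (hF (by omega) hm)
    · refine fun x => ⟨0, Eventually.of_forall fun y j _ => isS_of_id (hid n _ fun m z => ?_) y⟩
      by_contra hne
      exact hα (hcov m _ ⟨z, hne⟩)
  · exact hid n s (fun m z => (hq m).sup z s hs) x

theorem fusion {A : Set I} {U : ℕ → Set V} (hU : Monotone U) (hU' : ∀ v, ∃ n, v ∈ U n)
    (F₀ : Finset I) (hF₀ : ↑F₀ ⊆ A) (k : ℕ) {Q : ℕ → (X I → X I) → Prop}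
    (step : ∀ n p (F : Finset I), Cnd (co ⁻¹' A) p → ↑F ⊆ A → F₀ ⊆ F → F.card ≤ F₀.card + n →
      ∃ q, Cnd (co ⁻¹' A) q ∧ Frz (U n) F (k + n) q ∧ Q n (p ∘ q)) :
    ∃ r, Cnd (co ⁻¹' A) r ∧ Frz (U 0) F₀ k r ∧
      ∀ n, ∃ p w, Cnd (co ⁻¹' A) p ∧ Cnd (co ⁻¹' A) w ∧ Q n p ∧ r = p ∘ w := by
  classical
  have hen : ∀ q : X I → X I, ∃ e : ℕ → Finset I, (∀ j, (e j).card ≤ 1) ∧
      (Cnd (co ⁻¹' A) q → (∀ j, ↑(e j) ⊆ A) ∧ ∀ s, (∃ x, q x s ≠ x s) → ∃ j, co s ∈ e j) := by
    intro q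
    by_cases hq : Cnd (co ⁻¹' A) q ∧ {s | ∃ x, q x s ≠ x s}.Nonempty
    · obtain ⟨e, he⟩ := hq.1.supp.exists_eq_range hq.2
      refine ⟨fun j => {co (e j)}, fun j => by simp, fun _ => ⟨fun j => ?_, fun s hs => ?_⟩⟩
      · have : e j ∈ {s | ∃ x, q x s ≠ x s} := he ▸ ⟨j, rfl⟩
        obtain ⟨x, hx⟩ := this
        simp only [Finset.coe_singleton, singleton_subset_iff]
        by_contra hc
        exact hx (hq.1.sup x _ hc)
      · obtain ⟨j, rfl⟩ : s ∈ range e := he ▸ hs
        exact ⟨j, by simp⟩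
    · refine ⟨fun _ => ∅, fun j => by simp, fun h => ⟨fun j => by simp, fun s hs => ?_⟩⟩
      exact absurd ⟨h, s, hs⟩ hq
  choose en hen1 hen2 using hen
  choose! stp hs1 hs2 hs3 using step
  let st : ℕ → (X I → X I) × Finset I × (ℕ → X I → X I) := fun n =>
    Nat.rec (id, F₀, fun _ => id) (fun n s => (s.1 ∘ stp n s.1 s.2.1,
      s.2.1 ∪ en (update s.2.2 n (stp n s.1 s.2.1) n.unpair.1) n.unpair.2,
      update s.2.2 n (stp n s.1 s.2.1))) n
  let p : ℕ → X I → X I := fun n => (st n).1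
  let F : ℕ → Finset I := fun n => (st n).2.1
  let q : ℕ → X I → X I := fun n => stp n (p n) (F n)
  have hh : ∀ n, ∀ i < n, (st n).2.2 i = q i := by
    intro n
    induction n with
    | zero => intro i hi; omega
    | succ n ih =>
      intro i hi
      show update (st n).2.2 n (q n) i = q i
      rcases (Nat.lt_succ_iff.1 hi).lt_or_eq with h | rfl
      · rw [update_of_ne h.ne, ih i h]
      · rw [update_self]
  have hp : ∀ n, p (n + 1) = p n ∘ q n := fun n => rfl
  have hF : ∀ n, F (n + 1) = F n ∪ en (q n.unpair.1) n.unpair.2 := fun n => by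
    rw [← hh (n + 1) _ (Nat.lt_succ_of_le (Nat.unpair_left_le n))]
  have hinv : ∀ n, (∀ i < n, Cnd (co ⁻¹' A) (q i)) ∧ Cnd (co ⁻¹' A) (p n) ∧ ↑(F n) ⊆ A ∧
      F₀ ⊆ F n ∧ (F n).card ≤ F₀.card + n := by
    intro n
    induction n with
    | zero => exact ⟨fun i hi => by omega, Cnd.id, hF₀, subset_rfl, le_rfl⟩
    | succ n ih =>
      obtain ⟨a, b, c, d, e⟩ := ih
      have hqn : Cnd (co ⁻¹' A) (q n) := hs1 n _ _ b c d e
      have a' : ∀ i < n + 1, Cnd (co ⁻¹' A) (q i) := fun i hi => by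
        rcases (Nat.lt_succ_iff.1 hi).lt_or_eq with h | rfl
        · exact a i h
        · exact hqn
      refine ⟨a', hp n ▸ b.comp hqn, ?_, ?_, ?_⟩
      · rw [hF, Finset.coe_union]
        exact union_subset c ((hen2 _ (a' _ (Nat.lt_succ_of_le (Nat.unpair_left_le n)))).1 _)
      · rw [hF]; exact d.trans Finset.subset_union_left
      · rw [hF]
        have := hen1 (q n.unpair.1) n.unpair.2
        have := Finset.card_union_le (F n) (en (q n.unpair.1) n.unpair.2)
        omega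
  have hq : ∀ n, Cnd (co ⁻¹' A) (q n) := fun n => (hinv (n + 1)).1 n (by omega)
  have hmono : Monotone fun n => (F n : Set I) := monotone_nat_of_le_succ fun n => by
    rw [hF, Finset.coe_union]; exact subset_union_left
  obtain ⟨r, hr⟩ := exists_limit hq hU hU' hmono (k := k)
    (fun n => let ⟨_, b, c, d, e⟩ := hinv n; hs2 n _ _ b c d e) (fun n s hs => by
      obtain ⟨j, hj⟩ := (hen2 _ (hq n)).2 s hs
      refine ⟨Nat.pair n j + 1, ?_⟩
      simp only [hF, Nat.unpair_pair, Finset.coe_union]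
      exact Or.inr hj)
  have hfac : ∀ n, r 0 = p n ∘ r n := by
    intro n
    induction n with
    | zero => rfl
    | succ n ih => rw [ih, (hr n).2.1, hp]; rfl
  refine ⟨r 0, (hr 0).1, (hr 0).2.2, fun n => ⟨p (n + 1), r (n + 1), (hinv (n + 1)).2.1, (hr (n + 1)).1, ?_,
    hfac (n + 1)⟩⟩
  obtain ⟨_, b, c, d, e⟩ := hinv n
  exact hs3 n _ _ b c d e

end Pool.Agent.Lib.Common.TreeIter
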