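import Mathlib
import Pool.Agent.Lib.Common.TreeIter.Fusion

/-!
Open dense families, local membership, and continuous reading from pure decision.
-/

set_option autoImplicit false
set_option linter.unusedSectionVars false

namespace Pool.Agent.Lib.Common.TreeIter

open Set Filter Function

variable {I : Type} [LinearOrder I]

/-- Families of maps. -/
abbrev Fam (I : Type) := (X I → X I) → Prop

def Opn (T : Set (W I)) (𝒟 : Fam I) : Prop := ∀ p q, 𝒟 p → Cnd T q → 𝒟 (p ∘ q)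

def Dns (T : Set (W I)) (𝒟 : Fam I) : Prop := ∀ p, Cnd T p → ∃ q, Cnd T q ∧ 𝒟 (p ∘ q)

def Loc (T : Set (W I)) (p : X I → X I) (𝒟 : Fam I) : Prop :=
  ∃ S ⊆ T, S.Countable ∧ ∀ x, ∃ D, D.Finite ∧ D ⊆ S ∧ 𝒟 (p ∘ fix D x)

section
variable {T T' : Set (W I)} {𝒟 𝒟' : Fam I} {p w : X I → X I}

theorem Opn.mono (h : Opn T 𝒟) (hT : T' ⊆ T) : Opn T' 𝒟 := fun p q a b => h p q a (b.mono hT)

theorem Opn.pull (h : Opn T 𝒟) (p : X I → X I) : Opn T (fun q => 𝒟 (p ∘ q)) :=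
  fun q q' a b => h (p ∘ q) q' a b

theorem Dns.pull (h : Dns T 𝒟) (hp : Cnd T p) : Dns T (fun q => 𝒟 (p ∘ q)) :=
  fun q hq => h (p ∘ q) (hp.comp hq)

theorem Dns.mono (h : Dns T 𝒟) (h' : ∀ p, 𝒟 p → 𝒟' p) : Dns T 𝒟' :=
  fun p hp => let ⟨q, a, b⟩ := h p hp; ⟨q, a, h' _ b⟩

theorem fix_comp_eq {D : Set (W I)} {x : X I} (h : ∀ y, ∀ s ∈ D, w y s = x s) :
    fix D x ∘ w = w := funext fun y => fix_eq_self.2 (h y)

theorem Opn.cyl (h : Opn T 𝒟) {D : Set (W I)} {x : X I} (hD : 𝒟 (p ∘ fix D x)) (hw : Cnd T w)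
    (hx : ∀ y, ∀ s ∈ D, w y s = x s) : 𝒟 (p ∘ w) := by
  have := h _ _ hD hw
  rwa [comp_assoc, fix_comp_eq hx] at this

/-- A cylinder map with values in a given neighbourhood. -/
theorem exists_fix {S : Set (W I)} {x : X I} {u : X I → Prop} (h : ∀ᶠ y in nb S x, u y) :
    ∃ D, D.Finite ∧ D ⊆ S ∧ ∀ y, u (fix D x y) :=
  let ⟨D, a, b, c⟩ := h; ⟨D, a, b, fun _ => c _ fun _ hs => fix_of_mem hs _ _⟩

theorem Loc.intro {S : Set (W I)} (hS : S ⊆ T) (hc : S.Countable)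
    (h : ∀ x, ∃ u : X I → Prop, (∀ᶠ y in nb S x, u y) ∧
      ∀ w, Cnd T w → (∀ y, u (w y)) → 𝒟 (p ∘ w)) : Loc T p 𝒟 :=
  ⟨S, hS, hc, fun x =>
    let ⟨_, h1, h2⟩ := h x
    let ⟨D, a, b, c⟩ := exists_fix h1
    ⟨D, a, b, h2 _ (cnd_fix a (b.trans hS) x) c⟩⟩

theorem Loc.elim (h : Loc T p 𝒟) (ho : Opn T 𝒟) : ∃ S ⊆ T, S.Countable ∧
    ∀ x, ∃ u : X I → Prop, (∀ᶠ y in nb S x, u y) ∧
      ∀ w, Cnd T w → (∀ y, u (w y)) → 𝒟 (p ∘ w) :=
  let ⟨S, h1, h2, h3⟩ := h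
  ⟨S, h1, h2, fun x =>
    let ⟨D, a, b, c⟩ := h3 x
    ⟨fun y => ∀ s ∈ D, y s = x s, ⟨D, a, b, fun _ hy => hy⟩, fun _ hw hy => ho.cyl c hw hy⟩⟩

theorem Loc.comp (h : Loc T p 𝒟) (ho : Opn T 𝒟) (hT : IsLowerSet T) (hw : Cnd T w) :
    Loc T (p ∘ w) 𝒟 := by
  obtain ⟨S, h1, h2, h3⟩ := h.elim ho
  obtain ⟨S', a, b, c⟩ := hw.cau.tendsto hT h1 h2
  refine Loc.intro a b fun x => ?_
  obtain ⟨u, hu, hu'⟩ := h3 (w x)
  exact ⟨fun y => u (w y), c x u hu, fun w' hw' hy => hu' (w ∘ w') (hw.comp hw') hy⟩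

theorem Loc.of (ho : Opn T 𝒟) (h : 𝒟 p) : Loc T p 𝒟 :=
  ⟨∅, empty_subset _, countable_empty, fun x => ⟨∅, finite_empty, subset_rfl,
    ho _ _ h (cnd_fix finite_empty (empty_subset _) x)⟩⟩

theorem Loc.mono (h : Loc T p 𝒟) (h' : ∀ q, 𝒟 q → 𝒟' q) : Loc T p 𝒟' :=
  let ⟨S, h1, h2, h3⟩ := h
  ⟨S, h1, h2, fun x => let ⟨D, a, b, c⟩ := h3 x; ⟨D, a, b, h' _ c⟩⟩

theorem Loc.mono_left (h : Loc T p 𝒟) (hT : T ⊆ T') : Loc T' p 𝒟 :=
  let ⟨S, h1, h2, h3⟩ := h; ⟨S, h1.trans hT, h2, h3⟩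

theorem Loc.select (h : Loc T p 𝒟) : ∃ ρ : X I → X I → X I, CD T ρ ∧
    ∀ x, 𝒟 (p ∘ ρ x) ∧ Cnd T (ρ x) ∧ ρ x x = x := by
  obtain ⟨S, h1, h2, h3⟩ := h
  obtain ⟨ρ, a, b⟩ := TreeIter.select h1 h2 (Q := fun g => 𝒟 (p ∘ g)) h3
  refine ⟨ρ, a, fun x => ⟨(b x).1, ?_⟩⟩
  obtain ⟨D, c, d, e⟩ := (b x).2
  rw [e]
  exact ⟨cnd_fix c d x, fix_self D x⟩

theorem comp_fix_comm {s₀ : W I} {q : X I → X I} (hq : Cnd (Iio s₀) q) {D : Set (W I)}
    (hD : ∀ s ∈ D, s₀ ≤ s) (z : X I) : q ∘ fix D z = fix D z ∘ q := by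
  funext x s
  rcases lt_or_ge s s₀ with h | h
  · rw [comp_apply, comp_apply, fix_of_notMem fun hs => not_lt.2 (hD s hs) h]
    exact hq.cau.causal fun t ht => fix_of_notMem (fun hs => not_lt.2 (hD t hs) (ht.trans_lt h)) _ _
  · rw [comp_apply, comp_apply, hq.sup _ _ (not_lt.2 h)]
    by_cases hs : s ∈ D
    · rw [fix_of_mem hs, fix_of_mem hs]
    · rw [fix_of_notMem hs, fix_of_notMem hs, hq.sup _ _ (not_lt.2 h)]

end

theorem co_preimage_Iio (β : I) : co ⁻¹' Iio β = Iio (sp β 0) := by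
  ext s; exact lt_sp_zero.symm

theorem isLowerSet_co {A : Set I} (hA : IsLowerSet A) : IsLowerSet (co ⁻¹' A : Set (W I)) := by
  intro s t hts hs
  rw [← sp_co_lv s, ← sp_co_lv t, sp_le_sp] at hts
  exact hA (hts.elim le_of_lt fun h => h.1.le) hs

/-- Pure decision for the conditions supported on the coordinates in `A`. -/
def PD (A : Set I) : Prop :=
  ∀ 𝒟 : Fam I, Opn (co ⁻¹' A) 𝒟 → Dns (co ⁻¹' A) 𝒟 → ∀ F : Finset I, ↑F ⊆ A → ∀ k,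
    ∃ p, Cnd (co ⁻¹' A) p ∧ Frz univ F k p ∧ Loc (co ⁻¹' A) p 𝒟

variable [WellFoundedLT I]

theorem PD.cr {A : Set I} (h : PD A) (hA : IsLowerSet A) {J : Type} [Countable J]
    {𝒟 : J → Fam I} (ho : ∀ j, Opn (co ⁻¹' A) (𝒟 j)) (hd : ∀ j, Dns (co ⁻¹' A) (𝒟 j))
    (F : Finset I) (hF : ↑F ⊆ A) (k : ℕ) :
    ∃ p, Cnd (co ⁻¹' A) p ∧ Frz univ F k p ∧ ∀ j, Loc (co ⁻¹' A) p (𝒟 j) := by
  rcases isEmpty_or_nonempty J with hJ | hJ
  · exact ⟨id, Cnd.id, frz_of_id fun _ _ _ _ => rfl, fun j => isEmptyElim j⟩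
  obtain ⟨e, he⟩ := exists_surjective_nat J
  obtain ⟨r, h1, h2, h3⟩ := fusion (A := A) (U := fun _ => univ) monotone_const
    (fun _ => ⟨0, trivial⟩) F hF k (Q := fun n p => Loc (co ⁻¹' A) p (𝒟 (e n)))
    fun n p F' hp hF' _ _ => h _ ((ho (e n)).pull p) ((hd (e n)).pull hp) F' hF' (k + n)
  refine ⟨r, h1, h2, fun j => ?_⟩
  obtain ⟨n, rfl⟩ := he j
  obtain ⟨p, w, -, a, b, rfl⟩ := h3 n
  exact b.comp (ho _) (isLowerSet_co hA) a

/-- Continuous reading for families living on initial segments of the coordinate `β`. -/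
theorem PD.cr' {β : I} (h : PD (Iio β)) {J : Type} [Countable J] (i : J → ℕ)
    {𝒟 : J → Fam I} (ho : ∀ j, Opn (Iio (sp β (i j))) (𝒟 j))
    (hd : ∀ j, Dns (Iio (sp β (i j))) (𝒟 j)) (F : Finset I) (hF : ↑F ⊆ Iio β) (k : ℕ) :
    ∃ p, Cnd (Iio (sp β 0)) p ∧ Frz univ F k p ∧ ∀ j, Loc (Iio (sp β (i j))) p (𝒟 j) := by
  classical
  let D : J → Set (W I) := fun j => sp β '' Iio (i j)
  have hDf : ∀ j, (D j).Finite := fun j => (finite_Iio _).image _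
  have hDT : ∀ j, D j ⊆ Iio (sp β (i j)) := by
    rintro j _ ⟨l, hl, rfl⟩
    exact sp_strictMono β hl
  have hD0 : ∀ j, ∀ s ∈ D j, sp β 0 ≤ s := by
    rintro j _ ⟨l, -, rfl⟩
    exact sp_mono β (Nat.zero_le _)
  have hsub : ∀ j, Iio (sp β 0) ⊆ Iio (sp β (i j)) := fun j =>
    Iio_subset_Iio (sp_mono β (Nat.zero_le _))
  let nd : (Σ j, Fin (i j) → V) → X I → X I := fun c =>
    fix (D c.1) fun s => if h : lv s < i c.1 then c.2 ⟨lv s, h⟩ else default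
  have hnd : ∀ c, Cnd (Iio (sp β (i c.1))) (nd c) := fun c => cnd_fix (hDf _) (hDT _) _
  obtain ⟨p, h1, h2, h3⟩ := h.cr (isLowerSet_Iio β) (J := Σ j, Fin (i j) → V)
    (𝒟 := fun c q => 𝒟 c.1 (q ∘ nd c)) (fun c q q' a b => by
      rw [co_preimage_Iio] at b
      have := ho _ _ _ a (b.mono (hsub _))
      rwa [comp_assoc, ← comp_fix_comm b (hD0 _)] at this) (fun c q a => by
      rw [co_preimage_Iio] at a ⊢
      obtain ⟨q', b, e⟩ := hd c.1 _ ((a.mono (hsub _)).comp (hnd c))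
      refine ⟨res (sp β 0) q', b.res _, ?_⟩
      have : nd c ∘ q' = nd c ∘ res (sp β 0) q' := by
        funext x s
        simp only [comp_apply, nd]
        by_cases hs : s ∈ D c.1
        · rw [fix_of_mem hs, fix_of_mem hs]
        · rw [fix_of_notMem hs, fix_of_notMem hs]
          rcases lt_or_ge s (sp β 0) with h' | h'
          · rw [res_of_lt h']
          · rw [res_of_le h']
            refine b.sup x s fun h'' => hs ?_
            rcases lt_sp_iff.1 h'' with h3 | h3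
            · exact absurd (lt_sp_zero.2 h3) (not_lt.2 h')
            · exact ⟨lv s, h3.2, by rw [← h3.1, sp_co_lv]⟩
      rwa [comp_assoc, this, ← comp_fix_comm (b.res _) (hD0 _)] at e) F hF k
  rw [co_preimage_Iio] at h1 h3
  refine ⟨p, h1, h2, fun j => ?_⟩
  choose S hS1 hS2 hS3 using h3
  refine ⟨(⋃ t, S ⟨j, t⟩) ∪ D j, union_subset (iUnion_subset fun t => (hS1 _).trans (hsub j))
    (hDT j), (countable_iUnion fun t => hS2 _).union (hDf j).countable, fun x => ?_⟩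
  obtain ⟨D', a, b, c⟩ := hS3 ⟨j, fun l => x (sp β l)⟩ x
  refine ⟨D' ∪ D j, a.union (hDf j), union_subset_union_left _
    (b.trans (subset_iUnion (fun t => S ⟨j, t⟩) _)), ?_⟩
  have e1 : nd ⟨j, fun l => x (sp β l)⟩ = fix (D j) x := fix_congr (by
    rintro _ ⟨l, hl, rfl⟩
    simp [show l < i j from hl])
  have e2 : fix D' x ∘ fix (D j) x = fix (D' ∪ D j) x := by
    funext y s
    by_cases hs : s ∈ D'
    · rw [comp_apply, fix_of_mem hs, fix_of_mem (Or.inl hs)]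
    · rw [comp_apply, fix_of_notMem hs]
      by_cases hs' : s ∈ D j
      · rw [fix_of_mem hs', fix_of_mem (Or.inr hs')]
      · rw [fix_of_notMem hs', fix_of_notMem (fun h => h.elim hs hs')]
  rw [← e2, ← e1]
  exact c

end Pool.Agent.Lib.Common.TreeIter
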