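import Mathlib
import Pool.Agent.Lib.Common.TreeIter.Loc

/-!
Ramsey's theorem for pairs in the generic extension.
-/

set_option autoImplicit false
set_option linter.unusedSectionVars false

namespace Pool.Agent.Lib.Common.TreeIter

open Set Filter Function

variable {I : Type} [LinearOrder I]

/-- Continuous reading. -/
def CR (T : Set (W I)) : Prop :=
  ∀ (J : Type) [Countable J] (𝒟 : J → Fam I), (∀ j, Opn T (𝒟 j)) → (∀ j, Dns T (𝒟 j)) →
    ∃ p, Cnd T p ∧ ∀ j, Loc T p (𝒟 j)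

theorem PD.toCR [WellFoundedLT I] {A : Set I} (h : PD A) (hA : IsLowerSet A) : CR (co ⁻¹' A) :=
  fun _ _ _ ho hd => let ⟨p, a, _, b⟩ := h.cr hA ho hd ∅ (by simp) 0; ⟨p, a, b⟩

theorem PD.toCR' [WellFoundedLT I] {β : I} (h : PD (Iio β)) (i : ℕ) : CR (Iio (sp β i)) :=
  fun _ _ _ ho hd =>
    let ⟨p, a, _, b⟩ := h.cr' (fun _ => i) ho hd ∅ (by simp) 0
    ⟨p, a.mono (Iio_subset_Iio (sp_mono β (Nat.zero_le _))), b⟩

variable {T : Set (W I)}

theorem CD.of_local {J : Type*} [Countable J] {Y : J → Sort*} {Z : Sort*} {g : ∀ j, X I → Y j}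
    (hg : ∀ j, CD T (g j)) {f : X I → Z}
    (h : ∀ x, ∃ E : Set J, E.Finite ∧ ∀ y, (∀ j ∈ E, g j y = g j x) → f y = f x) : CD T f := by
  obtain ⟨S, h1, h2, h3⟩ := CD.common (countable_univ (α := J)) (f := g) fun j _ => hg j
  refine ⟨S, h1, h2, fun x => ?_⟩
  obtain ⟨E, a, b⟩ := h x
  filter_upwards [(eventually_all_finite a).2 fun j _ => h3 j trivial x] with y hy using b y hy

theorem CD.natInf {B : ℕ → X I → Prop} (hB : ∀ n, CD T (B n)) (hne : ∀ x, ∃ n, B n x) :
    CD T fun x => sInf {n | B n x} := by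
  refine CD.of_local hB fun x => ⟨Iic (sInf {n | B n x}), finite_Iic _, fun y hy => ?_⟩
  have h1 : B (sInf {n | B n x}) x := Nat.sInf_mem (s := {n | B n x}) (hne x)
  refine le_antisymm (Nat.sInf_le (by rw [mem_ofPred_eq, hy _ (mem_Iic.2 le_rfl)]; exact h1)) ?_
  by_contra hc
  push Not at hc
  have h2 : B (sInf {n | B n y}) y := Nat.sInf_mem (s := {n | B n y}) (hne y)
  rw [hy _ hc.le] at h2
  exact Nat.notMem_of_lt_sInf hc h2

theorem exists_enum {B : ℕ → X I → Prop} (hB : ∀ n, CD T (B n))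
    (hi : ∀ x, {n | B n x}.Infinite) : ∃ e : X I → ℕ → ℕ, (∀ i, CD T fun x => e x i) ∧
      ∀ x, StrictMono (e x) ∧ ∀ i, B (e x i) x := by
  let e : X I → ℕ → ℕ := fun x i =>
    Nat.rec (sInf {n | B n x}) (fun _ m => sInf {n | m < n ∧ B n x}) i
  have hne : ∀ x m, ∃ n, m < n ∧ B n x := fun x m =>
    let ⟨n, a, b⟩ := (hi x).exists_gt m; ⟨n, b, a⟩
  have hs : ∀ x i, e x i < e x (i + 1) ∧ B (e x (i + 1)) x := fun x i =>
    Nat.sInf_mem (s := {n | e x i < n ∧ B n x}) (hne x _)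
  refine ⟨e, fun i => ?_, fun x => ⟨strictMono_nat_of_lt_succ fun i => (hs x i).1, fun i => ?_⟩⟩
  · induction i with
    | zero => exact CD.natInf hB fun x => (hi x).nonempty
    | succ i ih =>
      exact CD.natInf (B := fun n x => e x i < n ∧ B n x)
        (fun n => ih.map₂ (hB n) fun m b => m < n ∧ b) fun x => hne x _
  · cases i with
    | zero => exact Nat.sInf_mem (s := {n | B n x}) (hi x).nonempty
    | succ i => exact (hs x i).2

/-- Deciding infinity. -/
theorem CR.decide_inf (h : CR T) (hT : IsLowerSet T) {J : Type} [Countable J]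
    {A : J → ℕ → X I → Prop} (hA : ∀ j n, CD T (A j n)) :
    ∃ q, Cnd T q ∧ ∀ j, CD T fun x => {n | A j n (q x)}.Infinite := by
  let Bd : J → Fam I := fun j q => ∃ N, ∀ x, ∀ n ≥ N, ¬ A j n (q x)
  have hBd : ∀ j, Opn T (Bd j) := fun j p q ⟨N, hN⟩ _ => ⟨N, fun x => hN _⟩
  let 𝒟 : J × Option ℕ → Fam I := fun c q => Bd c.1 q ∨
    c.2.elim (∀ q', Cnd T q' → ¬ Bd c.1 (q ∘ q')) fun m => ∃ n ≥ m, ∀ x, A c.1 n (q x)
  have ho : ∀ c, Opn T (𝒟 c) := by
    rintro ⟨j, _ | m⟩ p q (a | a) b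
    · exact Or.inl (hBd _ _ _ a b)
    · exact Or.inr fun q' c => a (q ∘ q') (b.comp c)
    · exact Or.inl (hBd _ _ _ a b)
    · obtain ⟨n, c, d⟩ := a
      exact Or.inr ⟨n, c, fun x => d _⟩
  obtain ⟨q, hq, hl⟩ := h _ 𝒟 ho (by
    rintro ⟨j, _ | m⟩ p hp
    · by_cases hc : ∃ q', Cnd T q' ∧ Bd j (p ∘ q')
      · obtain ⟨q', a, b⟩ := hc
        exact ⟨q', a, Or.inl b⟩
      · exact ⟨id, Cnd.id, Or.inr fun q' a b => hc ⟨q', a, b⟩⟩
    · by_cases hc : ∃ x, ∃ n ≥ m, A j n (p x)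
      · obtain ⟨x, n, a, b⟩ := hc
        obtain ⟨D, c, d, e⟩ := exists_fix (((hA j n).comp hT hp.cau).ev x)
        exact ⟨fix D x, cnd_fix c d x, Or.inr ⟨n, a, fun y => (e y).symm ▸ b⟩⟩
      · exact ⟨id, Cnd.id, Or.inl ⟨m, fun x n a b => hc ⟨x, n, a, b⟩⟩⟩)
  refine ⟨q, hq, fun j => ?_⟩
  obtain ⟨S, h1, h2, h3⟩ := hl (j, none)
  refine ⟨S, h1, h2, fun x => ?_⟩
  obtain ⟨D, a, b, c⟩ := h3 x
  rcases c with ⟨N, hN⟩ | c
  · have : ∀ y, (∀ s ∈ D, y s = x s) → ¬ {n | A j n (q y)}.Infinite := fun y hy hi => by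
      obtain ⟨n, e, f⟩ := hi.exists_gt N
      refine hN y n f.le ?_
      rwa [comp_apply, fix_eq_self.2 hy]
    exact ⟨D, a, b, fun y hy => propext (iff_of_false (this y hy) (this x fun _ _ => rfl))⟩
  · have : ∀ y, (∀ s ∈ D, y s = x s) → {n | A j n (q y)}.Infinite := fun y hy => by
      refine infinite_of_forall_exists_gt fun m => ?_
      obtain ⟨S', h1', -, h3'⟩ := hl (j, some (m + 1))
      obtain ⟨D', a', b', c'⟩ := h3' y
      have hw : Cnd T (fix (D ∪ D') y) :=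
        cnd_fix (a.union a') (union_subset (b.trans h1) (b'.trans h1')) y
      rcases (ho _).cyl c' hw (fun z s hs => fix_of_mem (Or.inr hs) _ _) with e | ⟨n, e, f⟩
      · refine absurd ?_ (c _ hw)
        rwa [comp_assoc, fix_comp_eq fun z s hs => (fix_of_mem (Or.inl hs) _ _).trans (hy s hs)]
      · refine ⟨n, ?_, e⟩
        have := f y
        rwa [comp_apply, fix_self] at this
    exact ⟨D, a, b, fun y hy => propext (iff_of_true (this y hy) (this x fun _ _ => rfl))⟩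

theorem exists_infinite_class {Y : Type*} [Finite Y] {s : Set ℕ} (hs : s.Infinite) (c : ℕ → Y) :
    ∃ κ, {n | n ∈ s ∧ c n = κ}.Infinite := by
  by_contra hc
  simp only [not_exists, not_infinite] at hc
  exact hs ((finite_iUnion hc).subset fun n hn => mem_iUnion.2 ⟨c n, hn, rfl⟩)

theorem CR.ramsey_nat (h : CR T) (hT : IsLowerSet T) {Y : Type} [Finite Y]
    {c : X I → ℕ → ℕ → Y} (hc : ∀ m n, CD T fun x => c x m n) :
    ∃ q, Cnd T q ∧ ∃ e : X I → ℕ → ℕ, (∀ i, CD T fun x => e x i) ∧ (∀ x, StrictMono (e x)) ∧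
      ∃ κ, ∀ x i j, i < j → c (q x) (e x i) (e x j) = κ := by
  have : Nonempty Y := ⟨c default 0 0⟩
  let A : List (ℕ × Y) → ℕ → X I → Prop := fun L n x => ∀ p ∈ L, p.1 < n ∧ c x p.1 n = p.2
  have hA : ∀ L n, CD T (A L n) := by
    intro L n
    induction L with
    | nil => simpa [A] using CD.const T True
    | cons p L ih =>
      simpa only [A, List.forall_mem_cons] using
        (hc p.1 n).map₂ ih fun y b => (p.1 < n ∧ y = p.2) ∧ b
  obtain ⟨q₁, hq₁, hinf⟩ := h.decide_inf hT hA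
  let nm : X I → List (ℕ × Y) → ℕ := fun x L => sInf {n | A L n (q₁ x)}
  let nk : X I → List (ℕ × Y) → Y := fun x L =>
    Classical.epsilon fun κ => {n | A ((nm x L, κ) :: L) n (q₁ x)}.Infinite
  let L : X I → ℕ → List (ℕ × Y) := fun x i =>
    Nat.rec [] (fun _ L => (nm x L, nk x L) :: L) i
  have hL : ∀ x i, L x (i + 1) = (nm x (L x i), nk x (L x i)) :: L x i := fun _ _ => rfl
  have h1 : ∀ x i, {n | A (L x i) n (q₁ x)}.Infinite := by
    intro x i
    induction i with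
    | zero => simpa [L, A] using infinite_univ
    | succ i ih =>
      rw [hL]
      refine Classical.epsilon_spec
        (p := fun κ => {n | A ((nm x (L x i), κ) :: L x i) n (q₁ x)}.Infinite) ?_
      obtain ⟨κ, hκ⟩ := exists_infinite_class (ih.sdiff (finite_Iic (nm x (L x i))))
        (c (q₁ x) (nm x (L x i)))
      refine ⟨κ, hκ.mono fun n hn => ?_⟩
      simp only [A, List.forall_mem_cons, mem_ofPred_eq]
      exact ⟨⟨not_le.1 hn.1.2, hn.2⟩, hn.1.1⟩
  have h2 : ∀ i, CD T (fun x => L x i) → CD T (fun x => nm x (L x i)) ∧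
      CD T (fun x => nk x (L x i)) := by
    intro i ih
    have a : CD T (fun x => nm x (L x i)) :=
      CD.natInf (B := fun n x => A (L x i) n (q₁ x)) (fun n =>
        CD.cases ih (F := fun L x => A L n (q₁ x)) fun x => (hA _ n).comp hT hq₁.cau)
        fun x => (h1 x i).nonempty
    refine ⟨a, CD.map (f := fun x κ => {n | A ((nm x (L x i), κ) :: L x i) n (q₁ x)}.Infinite)
      (CD.pi fun κ => ?_) Classical.epsilon⟩
    exact CD.cases (a.map₂ ih fun m L => (m, κ) :: L)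
      (F := fun L x => {n | A L n (q₁ x)}.Infinite) fun x => hinf _
  have h3 : ∀ i, CD T (fun x => L x i) := by
    intro i
    induction i with
    | zero => exact CD.const T []
    | succ i ih =>
      exact ((h2 i ih).1.map₂ (h2 i ih).2 Prod.mk).map₂ ih List.cons
  have h4 : ∀ x i j, i < j → (nm x (L x i), nk x (L x i)) ∈ L x j := by
    intro x i j hij
    induction j, hij using Nat.le_induction with
    | base => rw [hL]; exact List.mem_cons_self
    | succ j _ ih => rw [hL]; exact List.mem_cons_of_mem _ ih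
  have h5 : ∀ x i j, i < j → nm x (L x i) < nm x (L x j) ∧
      c (q₁ x) (nm x (L x i)) (nm x (L x j)) = nk x (L x i) := fun x i j hij =>
    Nat.sInf_mem (s := {n | A (L x j) n (q₁ x)}) (h1 x j).nonempty _ (h4 x i j hij)
  obtain ⟨q₂, hq₂, hinf₂⟩ := h.decide_inf hT (A := fun κ i x => nk x (L x i) = κ)
    fun κ i => (h2 i (h3 i)).2.map fun y => y = κ
  obtain ⟨κ, hκ⟩ := exists_infinite_class infinite_univ fun i => nk (q₂ default) (L (q₂ default) i)
  obtain ⟨D, a, b, d⟩ := exists_fix ((hinf₂ κ).ev default)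
  have hw : Cnd T (q₂ ∘ fix D default) := hq₂.comp (cnd_fix a b _)
  obtain ⟨e, he1, he2⟩ := exists_enum (T := T)
    (B := fun i x => nk (q₂ (fix D default x)) (L (q₂ (fix D default x)) i) = κ)
    (fun i => ((h2 i (h3 i)).2.comp hT hw.cau).map fun y => y = κ)
    fun x => by rw [d x]; simpa using hκ
  refine ⟨q₁ ∘ q₂ ∘ fix D default, hq₁.comp hw,
    fun x i => nm (q₂ (fix D default x)) (L (q₂ (fix D default x)) (e x i)), fun i => ?_,
    fun x i j hij => (h5 _ _ _ ((he2 x).1 hij)).1, κ, fun x i j hij =>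
      (h5 _ _ _ ((he2 x).1 hij)).2.trans ((he2 x).2 i)⟩
  exact CD.cases (he1 i) (F := fun l x => nm (q₂ (fix D default x)) (L (q₂ (fix D default x)) l))
    fun x => (h2 _ (h3 _)).1.comp hT hw.cau

/-- The pair `(m, n)` as an element of `V`. -/
def mkV (m n : ℕ) : V := if h : m < n then ⟨(m, n), h⟩ else default

theorem mkV_val {m n : ℕ} (h : m < n) : (mkV m n).1 = (m, n) := by simp [mkV, h]

theorem mkV_eta (v : V) : mkV v.1.1 v.1.2 = v := Subtype.ext (mkV_val v.2)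

theorem isS_mkV {e : ℕ → ℕ} (he : StrictMono e) : IsS fun v => mkV (e v.1.1) (e v.1.2) :=
  ⟨e, he, fun v => mkV_val (he v.2)⟩

/-- The pairs below `n`. -/
def Vn (n : ℕ) : Set V := {v | v.1.2 < n}

theorem Vn_mono : Monotone Vn := fun _ _ h _ hv => lt_of_lt_of_le hv h

theorem exists_Vn (v : V) : ∃ n, v ∈ Vn n := ⟨_, Nat.lt_succ_self _⟩

/-- Types of pairs relative to `n`. -/
abbrev Ty (n : ℕ) := (Fin n × Fin n) ⊕ Fin n ⊕ Unit

theorem CR.ramsey (h : CR T) (hT : IsLowerSet T) {Y : Type*} {K : Set Y} (hK : K.Finite)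
    {c : X I → V → Y} (hc : ∀ v, CD T fun x => c x v) (hcK : ∀ x v, c x v ∈ K) (n : ℕ) :
    ∃ q, Cnd T q ∧ ∃ a : X I → V → V, (∀ v, CD T fun x => a x v) ∧
      (∀ x, IsS (a x) ∧ ∀ v ∈ Vn n, a x v = v) ∧ ∃ τ : Ty n → X I → Y, (∀ t, CD T (τ t)) ∧
        (∀ t x, ∃ y v, τ t x = c y v) ∧ ∀ x v, ∃ t, c (q x) (a x v) = τ t x := by
  have := hK.to_subtype
  obtain ⟨N, ⟨φ⟩⟩ := Finite.exists_equiv_fin K
  let c' : X I → V → Fin N := fun x v => φ ⟨c x v, hcK x v⟩
  have hc' : ∀ v, CD T fun x => c' x v := fun v => by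
    obtain ⟨S, a, b, d⟩ := hc v
    refine ⟨S, a, b, fun x => (d x).mono fun y hy => ?_⟩
    exact congrArg φ (Subtype.ext hy)
  have hinj : ∀ {x v y w}, c' x v = c' y w → c x v = c y w := fun h =>
    congrArg Subtype.val (φ.injective h)
  obtain ⟨q, hq, e, he1, he2, κ, hκ⟩ := h.ramsey_nat hT (Y := Fin N × (Fin n → Fin N))
    (c := fun x m m' => (c' x (mkV (m + n) (m' + n)), fun l => c' x (mkV l (m + n))))
    fun m m' => (hc' _).map₂ (CD.pi fun l : Fin n => hc' (mkV l (m + n))) Prod.mk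
  let e' : X I → ℕ → ℕ := fun x i => if i < n then i else e x (i - n) + n
  have he' : ∀ x, StrictMono (e' x) := fun x i j hij => by
    simp only [e']
    split_ifs with h1 h2 h2
    · exact hij
    · omega
    · omega
    · have := he2 x (show i - n < j - n by omega)
      omega
  have he'' : ∀ i, CD T fun x => e' x i := fun i => (he1 (i - n)).map fun m =>
    if i < n then i else m + n
  let x₀ : X I := default
  refine ⟨q, hq, fun x v => mkV (e' x v.1.1) (e' x v.1.2), fun v => (he'' _).map₂ (he'' _) mkV,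
    fun x => ⟨isS_mkV (he' x), fun v hv => ?_⟩,
    Sum.elim (fun l x => c (q x) (mkV l.1 l.2)) (Sum.elim
      (fun l _ => c (q x₀) (mkV l (e x₀ 0 + n)))
      fun _ _ => c (q x₀) (mkV (e x₀ 0 + n) (e x₀ 1 + n))), ?_, ?_, fun x v => ?_⟩
  · have h2 : v.1.2 < n := hv
    have h1 : v.1.1 < n := v.2.trans h2
    simp only [e', if_pos h1, if_pos h2, mkV_eta]
  · rintro (l | l | l)
    · exact (hc _).comp hT hq.cau
    · exact CD.const _ _
    · exact CD.const _ _
  · rintro (l | l | l) x <;> exact ⟨_, _, rfl⟩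
  · have h0 := hκ x₀ 0 1 zero_lt_one
    by_cases h2 : v.1.2 < n
    · have h1 : v.1.1 < n := v.2.trans h2
      exact ⟨Sum.inl (⟨_, h1⟩, ⟨_, h2⟩), by simp only [e', if_pos h1, if_pos h2]; rfl⟩
    · by_cases h1 : v.1.1 < n
      · refine ⟨Sum.inr (Sum.inl ⟨_, h1⟩), ?_⟩
        simp only [e', if_pos h1, if_neg h2]
        have := (hκ x (v.1.2 - n) (v.1.2 - n + 1) (by omega)).trans h0.symm
        exact hinj (congrFun (congrArg Prod.snd this) ⟨_, h1⟩)
      · refine ⟨Sum.inr (Sum.inr ()), ?_⟩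
        simp only [e', if_neg h1, if_neg h2]
        have h3 := v.2
        have := (hκ x (v.1.1 - n) (v.1.2 - n) (by omega)).trans h0.symm
        exact hinj (congrArg Prod.fst this)

theorem ty_zero (t t' : Ty 0) : t = t' := by
  rcases t with ⟨⟨_, h⟩, _⟩ | ⟨_, h⟩ | _
  · omega
  · omega
  rcases t' with ⟨⟨_, h⟩, _⟩ | ⟨_, h⟩ | _
  · omega
  · omega
  rfl

end Pool.Agent.Lib.Common.TreeIter
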