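import Mathlib
import Pool.Agent.Lib.Common.TreeIter.Ramsey

/-!
Thinning out the successor sets at one coordinate.
-/

set_option autoImplicit false
set_option linter.unusedSectionVars false

namespace Pool.Agent.Lib.Common.TreeIter

open Set Filter Function

variable {I : Type} [LinearOrder I]

theorem Cnd.update_comm {s₀ s : W I} {q : X I → X I} (hq : Cnd (Iio s₀) q) (h : s₀ ≤ s)
    (x : X I) (v : V) : q (update x s v) = update (q x) s v := by
  funext t
  rcases lt_or_ge t s₀ with h' | h'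
  · rw [hq.cau.update_lt (h'.trans_le h), update_of_ne (h'.trans_le h).ne]
  · rw [hq.sup _ _ (not_lt.2 h')]
    by_cases ht : t = s
    · subst ht; simp
    · rw [update_of_ne ht, update_of_ne ht, hq.sup _ _ (not_lt.2 h')]

/-- A canonical colouring at the spot `s` can be reached by thinning at `s`. -/
def Can {Y : Type} (s : W I) (n : ℕ) (c : X I → Y) (M : X I → Set Y) (p : X I → X I) : Prop :=
  ∃ (a : X I → V → V) (τ : Ty n → X I → Y), (∀ v, CD (Iio s) fun x => a x v) ∧
    (∀ x, IsS (a x) ∧ ∀ v ∈ Vn n, a x v = v) ∧ (∀ t, CD (Iio s) (τ t)) ∧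
    (∀ t x, τ t x ∈ M (p x)) ∧ ∀ x v, ∃ t, c (update (p x) s (a x v)) = τ t x

section
variable {Y : Type} {s : W I} {n : ℕ} {c : X I → Y} {M : X I → Set Y}

theorem opn_can : Opn (Iio s) (Can s n c M) := fun _ w ⟨a, τ, h1, h2, h3, h4, h5⟩ hw =>
  ⟨fun x => a (w x), fun t x => τ t (w x), fun v => (h1 v).comp (isLowerSet_Iio s) hw.cau,
    fun _ => h2 _, fun t => (h3 t).comp (isLowerSet_Iio s) hw.cau, fun t _ => h4 t _,
    fun _ v => h5 _ v⟩

theorem dns_can (h : CR (Iio s)) (hc : CD (Iic s) c) (hM : CD (Iio s) M)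
    (hfin : ∀ x, (M x).Finite) (hcM : ∀ x, c x ∈ M x) : Dns (Iio s) (Can s n c M) := by
  intro p hp
  have hT := isLowerSet_Iio s
  obtain ⟨D, d1, d2, d3⟩ := exists_fix ((hM.comp hT hp.cau).ev default)
  have hw := hp.comp (cnd_fix d1 d2 default)
  obtain ⟨q, hq, a, h1, h2, τ, h3, h4, h5⟩ := h.ramsey hT (hfin (p default))
    (c := fun x v => c (update (p (fix D default x)) s v))
    (fun v => (cd_update_Iio hc (CD.const _ v)).comp hT hw.cau) (fun x v => by
      rw [← d3 x, ← hM.congr (x := p (fix D default x)) (y := update (p (fix D default x)) s v)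
        fun t ht => update_of_ne ht.ne _ _]
      exact hcM _) n
  refine ⟨fix D default ∘ q, (cnd_fix d1 d2 default).comp hq, a, τ, h1, h2, h3, fun t x => ?_, h5⟩
  obtain ⟨y, v, e⟩ := h4 t x
  show τ t x ∈ M (p (fix D default (q x)))
  rw [e, d3, ← d3 y, ← hM.congr (x := p (fix D default y))
    (y := update (p (fix D default y)) s v) fun t ht => update_of_ne ht.ne _ _]
  exact hcM _

theorem can_of_loc {q : X I → X I} (h : Loc (Iio s) q (Can s n c M)) : Can s n c M q := by
  obtain ⟨ρ, hρ, h'⟩ := h.select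
  have : ∀ g : X I → X I, ∃ (a : X I → V → V) (τ : Ty n → X I → Y), g ∈ range ρ →
      (∀ v, CD (Iio s) fun x => a x v) ∧
      (∀ x, IsS (a x) ∧ ∀ v ∈ Vn n, a x v = v) ∧ (∀ t, CD (Iio s) (τ t)) ∧
      (∀ t x, τ t x ∈ M (q (g x))) ∧ ∀ x v, ∃ t, c (update (q (g x)) s (a x v)) = τ t x := by
    intro g
    by_cases hg : g ∈ range ρ
    · obtain ⟨x, rfl⟩ := hg
      obtain ⟨a, τ, h⟩ := (h' x).1
      exact ⟨a, τ, fun _ => h⟩
    · exact ⟨fun _ v => v, fun _ x => c x, fun h => absurd h hg⟩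
  choose a τ H using this
  have H' := fun x => H (ρ x) ⟨x, rfl⟩
  refine ⟨fun x => a (ρ x) x, fun t x => τ (ρ x) t x,
    fun v => CD.cases hρ (F := fun g x => a g x v) fun x => (H' x).1 v, fun x => (H' x).2.1 x,
    fun t => CD.cases hρ (F := fun g x => τ g t x) fun x => (H' x).2.2.1 t, fun t x => ?_,
    fun x v => ?_⟩
  · have := (H' x).2.2.2.1 t x
    rwa [(h' x).2.2] at this
  · have := (H' x).2.2.2.2 x v
    rwa [(h' x).2.2] at this

end

variable [WellFoundedLT I]

theorem PD.exists_can {β : I} (h : PD (Iio β)) {J : Type} [Countable J] (i : J → ℕ) (n : ℕ)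
    {Y : Type} {c : J → X I → Y} {M : J → X I → Set Y}
    (hc : ∀ j, CD (Iic (sp β (i j))) (c j)) (hM : ∀ j, CD (Iio (sp β (i j))) (M j))
    (hfin : ∀ j x, (M j x).Finite) (hcM : ∀ j x, c j x ∈ M j x) (F : Finset I)
    (hF : ↑F ⊆ Iio β) (k : ℕ) :
    ∃ q, Cnd (Iio (sp β 0)) q ∧ Frz univ F k q ∧ ∀ j, Can (sp β (i j)) n (c j) (M j) q :=
  let ⟨q, h1, h2, h3⟩ := h.cr' i (𝒟 := fun j => Can (sp β (i j)) n (c j) (M j))
    (fun _ => opn_can) (fun j => dns_can (h.toCR' _) (hc j) (hM j) (hfin j) (hcM j)) F hF k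
  ⟨q, h1, h2, fun j => can_of_loc (h3 j)⟩

theorem PD.thin {β : I} (h : PD (Iio β)) {Y : Type} {K : Set Y} (hK : K.Finite)
    {c : ℕ → X I → Y} (hc : ∀ i, CD (Iic (sp β i)) (c i)) (hcK : ∀ i x, c i x ∈ K) :
    ∃ q E, Cnd (Iio (sp β 0)) q ∧ Cnd (co ⁻¹' {β}) E ∧ (∀ i x, IsS (sm E (sp β i) x)) ∧
      ∀ i x v, c i (q (E (update x (sp β i) v))) = c i (q (E x)) := by
  classical
  obtain ⟨q, hq, -, H⟩ := h.exists_can (fun i => i) 0 hc (M := fun _ _ => K)
    (fun _ => CD.const _ _) (fun _ _ => hK) hcK ∅ (by simp) 0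
  choose a τ h1 h2 _ _ h5 using H
  let E : ℕ → X I → X I := fun i => Nat.rec id (fun i E => one (sp β i) (a i) ∘ E) i
  have hE : ∀ i, E (i + 1) = one (sp β i) (a i) ∘ E i := fun _ => rfl
  have hEc : ∀ i, Cnd (sp β '' Iio i) (E i) := by
    intro i
    induction i with
    | zero => exact Cnd.id
    | succ i ih =>
      exact (cnd_one (h1 i) (mem_image_of_mem _ (mem_Iio.2 (Nat.lt_succ_self i)))).comp
        (ih.mono (image_mono (Iio_subset_Iio (Nat.le_succ i))))
  have hEid : ∀ i x, E i x (sp β i) = x (sp β i) := fun i x => (hEc i).sup _ _ (by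
    rintro ⟨l, hl, e⟩
    exact hl.ne (sp_inj.1 e).2)
  have hst : ∀ l i x, l < i → E i x (sp β l) = E (l + 1) x (sp β l) := by
    intro l i x hli
    induction i, hli using Nat.le_induction with
    | base => rfl
    | succ i hi ih =>
      rw [hE, comp_apply, one_of_ne, ih]
      exact fun e => (Nat.lt_of_succ_le hi).ne (sp_inj.1 e).2
  let G : X I → X I := fun x s => if co s = β then E (lv s + 1) x s else x s
  have hG1 : ∀ i x, G x (sp β i) = E (i + 1) x (sp β i) := fun i x => if_pos rfl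
  have hG2 : ∀ x s, co s ≠ β → G x s = x s := fun x s hs => if_neg hs
  have hG3 : ∀ i x, ∀ t ≤ sp β i, G x t = E (i + 1) x t := by
    intro i x t ht
    by_cases h' : co t = β
    · have e : t = sp β (lv t) := by rw [← h', sp_co_lv]
      rw [e, hG1, hst (lv t) (i + 1)]
      rw [e, sp_le_sp] at ht
      rcases ht with ht | ht
      · exact absurd ht (lt_irrefl _)
      · exact Nat.lt_succ_of_le ht.2
    · rw [hG2 _ _ h', (hEc (i + 1)).sup]
      rintro ⟨l, -, rfl⟩
      exact h' rfl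
  have hsm : ∀ i x, sm G (sp β i) x = a i (E i x) := by
    intro i x
    have : sm G (sp β i) x = sm (E (i + 1)) (sp β i) x := funext fun v => hG1 i _
    rw [this, hE, sm_comp (cnd_one (T := univ) (h1 i) trivial).cau (hEc i).cau, sm_one (h1 i),
      sm_of_id (hEid i)]
  have hval : ∀ i x v, c i (q (G (update x (sp β i) v))) =
      c i (update (q (E i x)) (sp β i) (a i (E i x) v)) := by
    intro i x v
    refine (hc i).congr fun t ht => ?_
    rw [← hq.update_comm (sp_mono β (Nat.zero_le i))]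
    refine hq.cau.causal fun t' ht' => ?_
    rcases (ht'.trans ht).lt_or_eq with h' | rfl
    · rw [hG3 i _ _ h'.le, hE, comp_apply, one_of_ne h'.ne, update_of_ne h'.ne,
        (hEc i).cau.update_lt h']
    · rw [update_self, ← hsm]; rfl
  refine ⟨q, G, hq, ⟨fun s => ?_, ?_, fun α x => ⟨0, Eventually.of_forall fun y j _ => ?_⟩,
    fun x s hs => hG2 x s hs⟩, fun i x => hsm i x ▸ (h2 i _).1, fun i x v => ?_⟩
  · by_cases h' : co s = β
    · simpa only [G, if_pos h'] using (hEc (lv s + 1)).cau s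
    · simpa only [G, if_neg h'] using CD.spot (T := Iic s) (mem_Iic.2 le_rfl)
  · refine (countable_range (sp β)).mono fun s ⟨x, hx⟩ => mem_range.2 ⟨lv s, ?_⟩
    by_contra hc
    exact hx (hG2 _ _ fun e => hc (by rw [← e, sp_co_lv]))
  · by_cases h' : α = β
    · subst h'
      exact hsm j y ▸ (h2 j _).1
    · exact isS_of_id (fun z => hG2 z (sp α j) h') _
  · have e := hval i x (x (sp β i))
    rw [update_eq_self] at e
    rw [hval, e]
    obtain ⟨t, ht⟩ := h5 i (E i x) v
    obtain ⟨t', ht'⟩ := h5 i (E i x) (x (sp β i))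
    rw [ht, ht', ty_zero t t']

end Pool.Agent.Lib.Common.TreeIter
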