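import Mathlib
import Pool.Agent.Lib.Common.TreeIter.Thin

/-!
Pure decision, by induction on the coordinates.
-/

set_option autoImplicit false
set_option linter.unusedSectionVars false

namespace Pool.Agent.Lib.Common.TreeIter

open Set Filter Function

variable {I : Type} [LinearOrder I]

/-- Pure extensions from the spot `(β, j)` on. -/
structure Tail (T : Set (W I)) (β : I) (j : ℕ) (u : X I → X I) : Prop where
  cnd : Cnd T u
  low : ∀ x, ∀ s < sp β j, u x s = x s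
  spl : ∀ i ≥ j, ∀ x, IsS (sm u (sp β i) x)

/-- Some pure extension from `(β, j)` on is locally in the family. -/
def Gd (T : Set (W I)) (β : I) (j : ℕ) (𝒟 : Fam I) : Fam I :=
  fun q => ∃ u, Tail T β j u ∧ Loc T (q ∘ u) 𝒟

section
variable {T : Set (W I)} {β : I} {j : ℕ}

theorem Iio_subset_of (hT : IsLowerSet T) (hβ : ∀ i, sp β i ∈ T) (j : ℕ) : Iio (sp β j) ⊆ T :=
  fun _ hs => hT (le_of_lt hs) (hβ j)

theorem opn_gd {𝒟 : Fam I} (hT : IsLowerSet T) (hβ : ∀ i, sp β i ∈ T) (ho : Opn T 𝒟) :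
    Opn (Iio (sp β j)) (Gd T β j 𝒟) := by
  rintro q q' ⟨u, hu, hl⟩ hq'
  have hq'' := hq'.mono (Iio_subset_of hT hβ j)
  refine ⟨up (sp β j) (u ∘ q'), ⟨(hu.cnd.comp hq'').up _, fun x s hs => up_of_lt hs x,
    fun i hi x => ?_⟩, ?_⟩
  · rw [sm_up_of_le (sp_mono β hi), sm_comp hu.cnd.cau hq'.cau]
    exact (hu.spl i hi _).comp
      (isS_of_id (fun y => hq'.sup y _ (not_lt.2 (sp_mono β hi))) _)
  · rw [comp_assoc, comp_up_comp hq' hu.low]
    exact hl.comp ho hT hq''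

theorem mix_gd {C : Type} {𝒟 : C → Fam I} (hT : IsLowerSet T) (hβ : ∀ i, sp β i ∈ T)
    (ho : ∀ c, Opn T (𝒟 c)) {q : X I → X I}
    (h : Loc (Iio (sp β j)) q fun p => ∃ c, Gd T β j (𝒟 c) p) :
    ∃ u, Tail T β j u ∧ ∃ κ : X I → C, CD (Iio (sp β j)) κ ∧ ∃ S ⊆ T, S.Countable ∧
      ∀ x, ∃ D, D.Finite ∧ D ⊆ S ∧ 𝒟 (κ x) (q ∘ u ∘ fix D x) := by
  obtain ⟨ρ, hρ, h'⟩ := h.select
  obtain ⟨c₀, -⟩ := (h' default).1
  have : ∀ g : X I → X I, ∃ (c : C) (u : X I → X I) (S : Set (W I)), g ∈ range ρ →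
      Tail T β j u ∧ S ⊆ T ∧ S.Countable ∧
        ∀ x, ∃ D, D.Finite ∧ D ⊆ S ∧ 𝒟 c (((q ∘ g) ∘ u) ∘ fix D x) := by
    intro g
    by_cases hg : g ∈ range ρ
    · obtain ⟨x, rfl⟩ := hg
      obtain ⟨c, u, a, S, b⟩ := (h' x).1
      exact ⟨c, u, S, fun _ => ⟨a, b⟩⟩
    · exact ⟨c₀, id, ∅, fun h => absurd h hg⟩
  choose c U S H using this
  have H' := fun x => H (ρ x) ⟨x, rfl⟩
  refine ⟨up (sp β j) fun x => U (ρ x) x, ⟨cnd_mix hρ fun x => (H' x).1.cnd,
    fun x s hs => up_of_lt hs x, fun i hi x => ?_⟩, fun x => c (ρ x), hρ.map c, ?_⟩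
  · rw [sm_mix hρ U (sp_mono β hi)]
    exact (H' x).1.spl i hi x
  have hcr := hρ.countable_range
  obtain ⟨S₀, a1, a2, a3⟩ := hρ
  refine ⟨S₀ ∪ ⋃ g ∈ range ρ, S g, union_subset (a1.trans (Iio_subset_of hT hβ j))
    (iUnion₂_subset fun g hg => (H g hg).2.1), a2.union (hcr.biUnion fun g hg => (H g hg).2.2.1),
    fun x => ?_⟩
  obtain ⟨D₁, b1, b2, b3⟩ := a3 x
  obtain ⟨D₂, c1, c2, c3⟩ := (H' x).2.2.2 x
  have hw : Cnd T (fix (D₁ ∪ D₂) x) := cnd_fix (b1.union c1) (union_subset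
    (b2.trans (a1.trans (Iio_subset_of hT hβ j))) (c2.trans (H' x).2.1)) x
  refine ⟨D₁ ∪ D₂, b1.union c1, union_subset_union b2
    (c2.trans (subset_biUnion_of_mem (u := S) (mem_range_self x))), ?_⟩
  have e := (ho _).cyl c3 hw fun z s hs => fix_of_mem (Or.inr hs) _ _
  have e' : (up (sp β j) fun x => U (ρ x) x) ∘ fix (D₁ ∪ D₂) x =
      ρ x ∘ U (ρ x) ∘ fix (D₁ ∪ D₂) x := by
    funext y s
    have hz : ρ (fix (D₁ ∪ D₂) x y) = ρ x := b3 _ fun s hs => fix_of_mem (Or.inl hs) _ _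
    simp only [comp_apply]
    generalize fix (D₁ ∪ D₂) x y = z at hz
    rcases lt_or_ge s (sp β j) with hs | hs
    · rw [up_of_lt hs, (h' x).2.1.cau.causal (x := z)
        fun t ht => (H' x).1.low z t (ht.trans_lt hs), ← hz, (h' z).2.2]
    · rw [up_of_le hs, (h' x).2.1.sup _ _ (not_lt.2 hs), hz]
  rw [e']
  exact e

theorem gd_of_loc {𝒟 : Fam I} (hT : IsLowerSet T) (hβ : ∀ i, sp β i ∈ T) (ho : Opn T 𝒟)
    {q : X I → X I} (h : Loc (Iio (sp β j)) q (Gd T β j 𝒟)) : Gd T β j 𝒟 q :=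
  let ⟨u, hu, _, _, hS⟩ := mix_gd (C := Unit) (𝒟 := fun _ => 𝒟) hT hβ (fun _ => ho)
    (h.mono fun _ hp => ⟨(), hp⟩)
  ⟨u, hu, hS⟩

theorem gd_step {𝒟 : Fam I} {q e : X I → X I} (he : Tail T β j e)
    (h : Gd T β (j + 1) 𝒟 (q ∘ e)) : Gd T β j 𝒟 q := by
  obtain ⟨u, hu, hl⟩ := h
  refine ⟨e ∘ u, ⟨he.cnd.comp hu.cnd, fun x s hs => ?_, fun i hi x => ?_⟩, hl⟩
  · rw [comp_apply, he.low _ _ hs, hu.low _ _ (hs.trans (sp_strictMono β (Nat.lt_succ_self j)))]
  · rw [sm_comp he.cnd.cau hu.cnd.cau]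
    refine (he.spl i hi _).comp ?_
    rcases hi.lt_or_eq with h' | rfl
    · exact hu.spl i h' x
    · exact isS_of_id (fun y => hu.low y _ (sp_strictMono β (Nat.lt_succ_self _))) _

variable [WellFoundedLT I]

theorem exists_gd {C : Type} {𝒟 : C → Fam I} (h : PD (Iio β)) (hT : IsLowerSet T)
    (hβ : ∀ i, sp β i ∈ T) (ho : ∀ c, Opn T (𝒟 c)) {K : Set C} (hK : K.Finite)
    (hd : Dns T fun p => ∃ c ∈ K, 𝒟 c p) :
    ∃ q, Cnd (Iio (sp β j)) q ∧ ∃ c ∈ K, Gd T β j (𝒟 c) q := by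
  classical
  by_contra hno
  let G : ℕ → Fam I := fun i q => ∃ c ∈ K, Gd T β i (𝒟 c) q
  have hG : ∀ i, Opn (Iio (sp β i)) (G i) := fun i p q ⟨c, a, b⟩ hq =>
    ⟨c, a, opn_gd hT hβ (ho c) p q b hq⟩
  obtain ⟨q₁, hq₁, -, hl⟩ := h.cr' (fun i => i)
    (𝒟 := fun i q => G i q ∨ ∀ q', Cnd (Iio (sp β i)) q' → ¬ G i (q ∘ q'))
    (fun i p q a b => a.imp (fun a => hG i p q a b) fun a q' c => a (q ∘ q') (b.comp c))
    (fun i p hp => by
      by_cases hc : ∃ q', Cnd (Iio (sp β i)) q' ∧ G i (p ∘ q')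
      · obtain ⟨q', a, b⟩ := hc
        exact ⟨q', a, Or.inl b⟩
      · exact ⟨id, Cnd.id, Or.inr fun q' a b => hc ⟨q', a, b⟩⟩) ∅ (by simp) 0
  have hsub : ∀ i, Iio (sp β 0) ⊆ Iio (sp β i) := fun i =>
    Iio_subset_Iio (sp_mono β (Nat.zero_le _))
  choose ρ hρ hρ' using fun i => (hl i).select
  let st : ℕ → X I → Option C := fun i x =>
    if h : G i (q₁ ∘ ρ i x) then some h.choose else none
  have hst : ∀ i, CD (Iio (sp β i)) (st i) := fun i =>
    (hρ i).map fun g => if h : G i (q₁ ∘ g) then some h.choose else none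
  have hsome : ∀ i x c, st i x = some c → c ∈ K ∧ Gd T β i (𝒟 c) (q₁ ∘ ρ i x) := by
    intro i x c hc
    simp only [st] at hc
    split_ifs at hc with h'
    obtain rfl := Option.some_injective _ hc
    exact h'.choose_spec
  have habs : ∀ i (w : X I → X I) g, (∀ z, ρ i (w z) = g) → g ∘ w = w := fun i w g hw =>
    funext fun z => by rw [comp_apply, ← hw z, (hρ' i _).2.2]
  have hgood : ∀ i w c, Cnd (Iio (sp β i)) w → (∀ y, st i (w y) = some c) →
      Gd T β i (𝒟 c) (q₁ ∘ w) := by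
    intro i w c hw hc
    refine gd_of_loc hT hβ (ho c) ?_
    obtain ⟨S, a1, a2, a3⟩ := (hρ i).comp (isLowerSet_Iio _) hw.cau
    refine Loc.intro a1 a2 fun y => ⟨_, a3 y, fun w' hw' hz => ?_⟩
    have := opn_gd hT hβ (ho c) _ _ (hsome i _ c (hc y)).2 (hw.comp hw')
    rwa [comp_assoc, habs i (w ∘ w') _ hz] at this
  have hbad : ∀ i w y, Cnd (Iio (sp β i)) w → st i (w y) = none → ¬ G i (q₁ ∘ w) := by
    intro i w y hw hc hg
    obtain ⟨D, a1, a2, a3⟩ := exists_fix (((hρ i).comp (isLowerSet_Iio _) hw.cau).ev y)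
    have hn : ¬ G i (q₁ ∘ ρ i (w y)) := fun h' => by simp [st, h'] at hc
    refine ((hρ' i (w y)).1.resolve_left hn) (w ∘ fix D y) (hw.comp (cnd_fix a1 a2 y)) ?_
    rw [comp_assoc, habs i (w ∘ fix D y) _ a3]
    exact hG i (q₁ ∘ w) _ hg (cnd_fix a1 a2 y)
  obtain ⟨q₂, E, hq₂, hE, hEs, hEc⟩ := h.thin (K := insert none (some '' K))
    ((hK.image _).insert _) (c := fun i => st (i + 1))
    (fun i => Iio_sp_succ β i ▸ hst (i + 1)) (fun i x => by
      cases hc : st (i + 1) x with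
      | none => exact Or.inl rfl
      | some c => exact Or.inr ⟨c, (hsome _ _ _ hc).1, rfl⟩)
  have hP : Cnd T (q₂ ∘ E) := (hq₂.mono (Iio_subset_of hT hβ 0)).comp (hE.mono fun s hs => by
    have : s = sp β (lv s) := by rw [← show co s = β from hs, sp_co_lv]
    rw [this]; exact hβ _)
  have hPs : ∀ i x, IsS (sm (q₂ ∘ E) (sp β i) x) := fun i x => by
    rw [sm_comp hq₂.cau hE.cau]
    exact (isS_of_id (fun y => hq₂.sup y _ (not_lt.2 (sp_mono β (Nat.zero_le _)))) _).comp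
      (hEs i x)
  have hres : ∀ i (w : X I → X I) y, st i (res (sp β i) w y) = st i (w y) := fun i w y =>
    (hst i).congr fun s hs => res_of_lt hs y
  have hinv : ∀ i ≥ j, ∀ x, st i (q₂ (E x)) = none := by
    intro i hi
    induction i, hi using Nat.le_induction with
    | base =>
      intro x
      cases hc : st j (q₂ (E x)) with
      | none => rfl
      | some c =>
        exact absurd ⟨_, (hq₁.mono (hsub j)).comp (hρ' j _).2.1, c, hsome _ _ _ hc⟩ hno
    | succ i hi ih =>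
      intro x
      cases hc : st (i + 1) (q₂ (E x)) with
      | none => rfl
      | some c =>
        exfalso
        have hf : CD (Iic (sp β i)) fun y => st (i + 1) (q₂ (E y)) :=
          (Iio_sp_succ β i ▸ hst (i + 1)).comp (isLowerSet_Iic _) hP.cau
        have hf' : CD (Iio (sp β i)) fun y => st (i + 1) (q₂ (E y)) :=
          hf.of_dep fun y y' hy => by
            refine (hEc i y (y' (sp β i))).symm.trans (hf.congr fun t ht => ?_)
            rcases (mem_Iic.1 ht).lt_or_eq with h' | rfl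
            · rw [update_of_ne h'.ne, hy t h']
            · rw [update_self]
        obtain ⟨D, a1, a2, a3⟩ := exists_fix (hf'.ev x)
        have hw₀ := hP.comp (cnd_fix a1 (a2.trans (Iio_subset_of hT hβ i)) x)
        have hw' := hw₀.res (sp β (i + 1))
        have g1 := hgood (i + 1) _ c hw' fun y => (hres _ _ _).trans ((a3 y).trans hc)
        rw [← res_comp_up hw'.cau (sp β i)] at g1
        have g2 : Gd T β i (𝒟 c) (q₁ ∘ res (sp β i) (res (sp β (i + 1)) ((q₂ ∘ E) ∘ fix D x))) := by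
          refine gd_step ⟨(hw'.mono (Iio_subset_of hT hβ _)).up _, fun y s hs => up_of_lt hs y,
            fun l hl y => ?_⟩ g1
          rw [sm_up_of_le (sp_mono β hl)]
          rcases hl.lt_or_eq with h' | rfl
          · exact isS_of_id (fun z => res_of_le (sp_mono β h') z) _
          · rw [res, sm_patch_of_mem (mem_Iio.2 (sp_strictMono β (Nat.lt_succ_self _))),
              sm_comp hP.cau (cau_fix D x)]
            exact (hPs _ _).comp
              (isS_of_id (fun z => fix_of_notMem (fun h'' => lt_irrefl (sp β i) (a2 h'')) _ _) _)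
        refine hbad i _ x (hw'.res _) ?_ ⟨c, (hsome _ _ _ hc).1, g2⟩
        rw [hres, ← ih x]
        refine (hst i).congr fun s hs => ?_
        rw [res_of_lt (hs.trans (sp_strictMono β (Nat.lt_succ_self _))), comp_apply, fix_self]
        rfl
  obtain ⟨p, hp, c, hcK, hc⟩ := hd _ ((hq₁.mono (Iio_subset_of hT hβ 0)).comp hP)
  have hR := hP.comp hp
  obtain ⟨L, hL⟩ := hR.spl β default
  obtain ⟨D, a1, a2, a3⟩ := exists_fix (nb_restrict (S := T) hL fun y z hyz hy l hl => by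
    rw [hR.cau.sm_congr (x := y) fun t ht => (hyz t (hT ht.le (hβ l))).symm]
    exact hy l hl)
  obtain ⟨L', hL'⟩ := exists_level a1
  have hw := hR.comp (cnd_fix a1 a2 default)
  refine hbad (j + L + L') _ default (hw.res _) ((hres _ _ _).trans (hinv _ (by omega) _))
    ⟨c, hcK, up (sp β (j + L + L')) (((q₂ ∘ E) ∘ p) ∘ fix D default),
      ⟨hw.up _, fun y s hs => up_of_lt hs y, fun l hl y => ?_⟩, Loc.of (ho c) ?_⟩
  · rw [sm_up_of_le (sp_mono β hl), sm_comp hR.cau (cau_fix _ _)]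
    exact (a3 y l (by omega)).comp
      (isS_of_id (fun z => fix_of_notMem (hL' β l (by omega)) _ _) _)
  · rw [comp_assoc, res_comp_up hw.cau]
    exact ho c ((q₁ ∘ q₂ ∘ E) ∘ p) _ hc (cnd_fix a1 a2 default)

end

variable [WellFoundedLT I]

theorem pd_step {A : Set I} (hA : IsLowerSet A) (h : ∀ β ∈ A, PD (Iio β)) : PD A := by
  classical
  intro 𝒟 ho hd F hF k
  rcases F.eq_empty_or_nonempty with rfl | hne
  · obtain ⟨q, a, b⟩ := hd id Cnd.id
    exact ⟨q, a, fun α hα => by simp at hα, Loc.of ho b⟩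
  have hT := isLowerSet_co hA
  set β := F.max' hne
  have hβA : β ∈ A := hF (F.max'_mem hne)
  have hβ : ∀ i, sp β i ∈ (co ⁻¹' A : Set (W I)) := fun _ => hβA
  have hlt : ∀ α ∈ F, α ≠ β → α < β := fun α hα h' => lt_of_le_of_ne (F.le_max' α hα) h'
  obtain ⟨q, hq, hf, hl⟩ := (h β hβA).cr' (J := Unit) (fun _ => k)
    (𝒟 := fun _ => Gd (co ⁻¹' A) β k 𝒟) (fun _ => opn_gd hT hβ ho) (fun _ p hp => by
      obtain ⟨q, a, -, -, b⟩ := exists_gd (j := k) (C := Unit) (𝒟 := fun _ q => 𝒟 (p ∘ q))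
        (h β hβA) hT hβ (fun _ => ho.pull p) (K := univ) finite_univ
        ((hd.pull (hp.mono (Iio_subset_of hT hβ k))).mono fun _ hp => ⟨(), trivial, hp⟩)
      exact ⟨q, a, b⟩) (F.erase β) (fun α hα => by
        simp only [Finset.coe_erase, Set.mem_sdiff, mem_singleton_iff] at hα
        exact hlt α hα.1 hα.2) k
  obtain ⟨u, hu, hl'⟩ := gd_of_loc hT hβ ho (hl ())
  refine ⟨q ∘ u, (hq.mono (Iio_subset_of hT hβ 0)).comp hu.cnd,
    Frz.comp (fun α hα => ?_) (fun α hα => ?_) hq.cau hu.cnd.cau, hl'⟩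
  · by_cases h' : α = β
    · exact frz_of_id (F := {β}) (fun α hα i x => hq.sup x _
        (not_lt.2 (sp_le_sp.2 (Or.inr ⟨Eq.symm hα, Nat.zero_le i⟩)))) α h'
    · exact hf α (by simpa using ⟨hα, h'⟩)
  · by_cases h' : α = β
    · subst h'
      refine ⟨fun i x => ?_, fun i hi x _ => hu.low x _ (sp_strictMono _ hi)⟩
      rcases lt_or_ge i k with hi | hi
      · exact isS_of_id (fun y => hu.low y _ (sp_strictMono _ hi)) _
      · exact hu.spl i hi x
    · exact frz_of_id (F := {α}) (fun α' hα' i x => hu.low x _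
        (hα' ▸ sp_lt_sp.2 (Or.inl (hlt α hα h')))) α rfl

theorem pd_Iio (β : I) : PD (Iio β) := by
  induction β using WellFoundedLT.induction with
  | ind β ih => exact pd_step (isLowerSet_Iio β) ih

theorem pd {A : Set I} (hA : IsLowerSet A) : PD A := pd_step hA fun β _ => pd_Iio β

theorem cr_univ : CR (univ : Set (W I)) := (pd isLowerSet_univ).toCR isLowerSet_univ

end Pool.Agent.Lib.Common.TreeIter
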