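import Mathlib
import Pool.Agent.Lib.Common.TreeIter.Pure

/-!
The Laver property relative to an initial segment of the iteration.
-/

set_option autoImplicit false
set_option linter.unusedSectionVars false

namespace Pool.Agent.Lib.Common.TreeIter

open Set Filter Function

variable {I : Type} [LinearOrder I] [WellFoundedLT I]

theorem encard_iUnion_le {J Y : Type*} [Fintype J] {f : J → Set Y} {N : ℕ}
    (h : ∀ j, (f j).encard ≤ N) : (⋃ j, f j).encard ≤ (N * Fintype.card J : ℕ) := by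
  classical
  have key : ∀ s : Finset J, (⋃ j ∈ s, f j).encard ≤ (N * s.card : ℕ) := by
    intro s
    induction s using Finset.induction_on with
    | empty => simp
    | insert a s ha ih =>
      rw [Finset.set_biUnion_insert, Finset.card_insert_of_notMem ha, mul_add, mul_one, add_comm,
        Nat.cast_add]
      exact (encard_union_le _ _).trans (add_le_add (h a) ih)
  simpa using key Finset.univ

theorem frz_insert {U : Set V} {F : Finset I} {δ : I} {n : ℕ} {q : X I → X I}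
    (h1 : Frz U {δ} n q) (h2 : Frz U F n q) : Frz U (insert δ F : Finset I) n q := by
  rw [Finset.coe_insert, insert_eq]
  exact h1.union h2

section
variable {Y : Type} {β₀ : I} {n : ℕ}

theorem lp_levels {δ : I} (hδ : β₀ ≤ δ) {F : Finset I} (hF : ↑F ⊆ Iio δ) (j : ℕ) :
    ∀ (a M : X I → Set Y) (N : ℕ), CD (Iio (sp δ j)) a → CD (Iio (sp β₀ 0)) M →
      (∀ x, (M x).Finite) → (∀ x, a x ⊆ M x) → (∀ x, (a x).encard ≤ N) →
      ∃ p, Cnd (Iio (sp δ j)) p ∧ Frz (Vn n) (insert δ F : Finset I) n p ∧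
        ∃ S : X I → Set Y, CD (Iio (sp δ 0)) S ∧
          (∀ x, (S x).encard ≤ (N * Fintype.card (Ty n) ^ j : ℕ)) ∧ (∀ x, S x ⊆ M (p x)) ∧
          ∀ x, a (p x) ⊆ S x := by
  induction j with
  | zero =>
    intro a M N ha _ _ haM haN
    exact ⟨id, Cnd.id, frz_of_id fun _ _ _ _ => rfl, a, ha, by simpa using haN, haM,
      fun _ => subset_rfl⟩
  | succ j ih =>
    intro a M N ha hM hfin haM haN
    have hle : sp β₀ 0 ≤ sp δ j := sp_le_sp.2 (hδ.lt_or_eq.imp id fun h => ⟨h, Nat.zero_le _⟩)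
    obtain ⟨q, hq, hf, hcan⟩ := (pd_Iio δ).exists_can (J := Unit) (fun _ => j) n
      (c := fun _ => a) (M := fun _ x => {c | c ⊆ M x ∧ c.encard ≤ N})
      (fun _ => Iio_sp_succ δ j ▸ ha)
      (fun _ => (hM.mono (Iio_subset_Iio hle)).map fun K => {c | c ⊆ K ∧ c.encard ≤ N})
      (fun _ x => (hfin x).finite_subsets.subset fun c hc => hc.1)
      (fun _ x => ⟨haM x, haN x⟩) F hF n
    obtain ⟨a', τ, h1, h2, h3, h4, h5⟩ := hcan ()
    have he : Cnd (Iio (sp δ (j + 1))) (one (sp δ j) a') :=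
      cnd_one h1 (sp_strictMono δ (Nat.lt_succ_self j))
    have hqe := (hq.mono (Iio_subset_Iio (sp_mono δ (Nat.zero_le (j + 1))))).comp he
    obtain ⟨p, hp, hpf, S, hS1, hS2, hS3, hS4⟩ := ih (fun x => ⋃ t, τ t x)
      (fun x => M (q (one (sp δ j) a' x))) (N * Fintype.card (Ty n))
      ((CD.pi h3).map fun g => ⋃ t, g t) (hM.comp (isLowerSet_Iio _) hqe.cau) (fun x => hfin _)
      (fun x => iUnion_subset fun t => by
        have : M (q (one (sp δ j) a' x)) = M (q x) := hM.congr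
          (hq.cau.agree_lt fun s hs => one_of_ne (hs.trans_le hle).ne _ _)
        rw [this]
        exact (h4 t x).1)
      (fun x => encard_iUnion_le fun t => (h4 t x).2)
    have hp' := hp.mono (Iio_subset_Iio (sp_mono δ (Nat.le_succ j)))
    refine ⟨(q ∘ one (sp δ j) a') ∘ p, hqe.comp hp', Frz.comp (Frz.comp (frz_insert ?_
      (hf.mono (subset_univ _) subset_rfl le_rfl)) (frz_insert ?_ ?_) hq.cau he.cau) hpf hqe.cau
      hp.cau, S, hS1, fun x => ?_, hS3, fun x => subset_trans ?_ (hS4 x)⟩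
    · exact frz_of_id fun α hα i x => hq.sup x _
        (not_lt.2 (sp_le_sp.2 (Or.inr ⟨Eq.symm hα, Nat.zero_le i⟩)))
    · rintro α rfl
      refine ⟨fun i x => ?_, fun i _ x hx => ?_⟩
      · by_cases hi : i = j
        · subst hi
          rw [sm_one h1]
          exact (h2 x).1
        · exact isS_of_id (fun y => one_of_ne (fun e => hi (sp_inj.1 e).2) _ _) _
      · by_cases hi : i = j
        · subst hi
          rw [one_self, (h2 x).2 _ hx]
        · exact one_of_ne (fun e => hi (sp_inj.1 e).2) _ _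
    · exact frz_of_id fun α hα i x => one_of_ne (fun e => (hF hα).ne (sp_inj.1 e).1) _ _
    · rw [pow_succ', ← mul_assoc]
      exact hS2 x
    · obtain ⟨t, ht⟩ := h5 (p x) (p x (sp δ j))
      show a (q (update (p x) (sp δ j) _)) ⊆ _
      rw [hq.update_comm (sp_mono δ (Nat.zero_le j)), ht]
      exact subset_iUnion (fun t => τ t (p x)) t

theorem lp_step (F : Finset I) :
    ∀ (A : Set I) (a M : X I → Set Y) (N : ℕ), IsLowerSet A → ↑F ⊆ A →
      ((∃ α ∈ A, β₀ ≤ α) → β₀ ∈ F) → CD (co ⁻¹' A) a → CD (Iio (sp β₀ 0)) M →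
      (∀ x, (M x).Finite) → (∀ x, a x ⊆ M x) → (∀ x, (a x).encard ≤ N) →
      ∃ p, Cnd (co ⁻¹' A) p ∧ Frz (Vn n) F n p ∧ ∃ S : X I → Set Y, CD (Iio (sp β₀ 0)) S ∧
        (∀ x, (S x).encard ≤ (N * Fintype.card (Ty n) ^ (n * F.card) : ℕ)) ∧
        ∀ x, a (p x) ⊆ S x := by
  have triv : ∀ (F : Finset I) (A : Set I) (a : X I → Set Y) (N : ℕ), (¬ ∃ α ∈ A, β₀ ≤ α) →
      CD (co ⁻¹' A) a → (∀ x, (a x).encard ≤ N) →
      ∃ p, Cnd (co ⁻¹' A) p ∧ Frz (Vn n) F n p ∧ ∃ S : X I → Set Y, CD (Iio (sp β₀ 0)) S ∧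
        (∀ x, (S x).encard ≤ (N * Fintype.card (Ty n) ^ (n * F.card) : ℕ)) ∧
        ∀ x, a (p x) ⊆ S x := by
    intro F A a N h ha haN
    refine ⟨id, Cnd.id, frz_of_id fun _ _ _ _ => rfl, a, ha.mono fun s hs => lt_sp_zero.2 ?_,
      fun x => (haN x).trans ?_, fun _ => subset_rfl⟩
    · exact not_le.1 fun h' => h ⟨_, hs, h'⟩
    · exact Nat.cast_le.2 (Nat.le_mul_of_pos_right _ (pow_pos Fintype.card_pos _))
  induction F using Finset.induction_on_max with
  | empty =>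
    intro A a M N _ _ h ha _ _ _ haN
    exact triv _ A a N (fun h' => by simpa using h h') ha haN
  | insert δ F hδ ih =>
    intro A a M N hA hFA h ha hM hfin haM haN
    by_cases hex : ∃ α ∈ A, β₀ ≤ α
    swap
    · exact triv _ A a N hex ha haN
    have hβδ : β₀ ≤ δ := by
      rcases Finset.mem_insert.1 (h hex) with h' | h'
      · exact h'.le
      · exact (hδ _ h').le
    have hT := isLowerSet_co hA
    have hβ : ∀ i, sp δ i ∈ (co ⁻¹' A : Set (W I)) := fun _ => hFA (Finset.mem_insert_self _ _)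
    have hF : ↑F ⊆ Iio δ := fun α hα => hδ α hα
    have hle : sp β₀ 0 ≤ sp δ n := sp_le_sp.2 (hβδ.lt_or_eq.imp id fun h => ⟨h, Nat.zero_le _⟩)
    have ho : ∀ c, Opn (co ⁻¹' A) fun p => ∀ y, a (p y) = c := fun c p q h _ y => h _
    obtain ⟨q, hq, hf, hl⟩ := (pd_Iio δ).cr' (J := Unit) (fun _ => n)
      (𝒟 := fun _ q => ∃ c, Gd (co ⁻¹' A) δ n (fun p => ∀ y, a (p y) = c) q)
      (fun _ p q ⟨c, hc⟩ hq => ⟨c, opn_gd hT hβ (ho c) p q hc hq⟩) (fun _ p hp => by
        obtain ⟨D, d1, d2, d3⟩ := exists_fix ((hM.comp (isLowerSet_Iio _) hp.cau).ev default)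
        have hD := cnd_fix d1 (d2.trans (Iio_subset_Iio hle)) (default : X I)
        have hw := (hp.comp hD).mono (Iio_subset_of hT hβ n)
        obtain ⟨q, e1, c, -, e2⟩ := exists_gd (j := n)
          (𝒟 := fun c q => ∀ y, a (((p ∘ fix D default) ∘ q) y) = c) (pd_Iio δ) hT hβ
          (fun c => (ho c).pull _) (K := {c | c ⊆ M (p default)}) (hfin _).finite_subsets
          (fun r hr => by
            obtain ⟨D', f1, f2, f3⟩ := exists_fix ((ha.comp hT (hw.comp hr).cau).ev default)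
            refine ⟨fix D' default, cnd_fix f1 f2 _, _, ?_, f3⟩
            rw [← d3 (r default)]
            exact haM _)
        exact ⟨fix D default ∘ q, hD.comp e1, c, e2⟩) F hF n
    obtain ⟨u, hu, κ, hκ, S₀, -, -, hS₀⟩ := mix_gd hT hβ ho (hl ())
    have hκ' : ∀ x, a (q (u x)) = κ x := fun x => by
      obtain ⟨D, -, -, e⟩ := hS₀ x
      have := e x
      rwa [comp_apply, comp_apply, fix_self] at this
    have hqu := (hq.mono (Iio_subset_of hT hβ 0)).comp hu.cnd
    obtain ⟨p₃, hp₃, hf₃, S₃, a1, a2, a3, a4⟩ := lp_levels (n := n) hβδ hF n κ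
      (fun x => M (q (u x))) N hκ (hM.comp (isLowerSet_Iio _) hqu.cau) (fun x => hfin _)
      (fun x => hκ' x ▸ haM _) (fun x => hκ' x ▸ haN _)
    have hp₃' := hp₃.mono (Iio_subset_of hT hβ n)
    obtain ⟨p₄, hp₄, hf₄, S₄, b1, b2, b3⟩ := ih (Iio δ) S₃ (fun x => M (q (u (p₃ x)))) _
      (isLowerSet_Iio δ) hF (fun ⟨α, c1, c2⟩ =>
        (Finset.mem_insert.1 (h hex)).resolve_left (c2.trans_lt c1).ne)
      (co_preimage_Iio δ ▸ a1) (hM.comp (isLowerSet_Iio _) (hqu.comp hp₃').cau) (fun x => hfin _)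
      a3 a2
    rw [co_preimage_Iio] at hp₄
    have hid : ∀ {r : X I → X I}, Cnd (Iio (sp δ 0)) r → Frz (Vn n) {δ} n r := fun hr =>
      frz_of_id fun α hα i x => hr.sup x _
        (not_lt.2 (sp_le_sp.2 (Or.inr ⟨Eq.symm hα, Nat.zero_le i⟩)))
    refine ⟨((q ∘ u) ∘ p₃) ∘ p₄, (hqu.comp hp₃').comp (hp₄.mono (Iio_subset_of hT hβ 0)),
      Frz.comp (Frz.comp (Frz.comp (frz_insert (hid hq)
        (hf.mono (subset_univ _) subset_rfl le_rfl)) (frz_insert ?_ ?_) hq.cau hu.cnd.cau) hf₃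
        hqu.cau hp₃.cau) (frz_insert (hid hp₄) hf₄) (hqu.comp hp₃').cau hp₄.cau,
      S₄, b1, fun x => ?_, fun x => subset_trans ?_ (b3 x)⟩
    · rintro α rfl
      refine ⟨fun i x => ?_, fun i hi x _ => hu.low x _ (sp_strictMono _ hi)⟩
      rcases lt_or_ge i n with hi | hi
      · exact isS_of_id (fun y => hu.low y _ (sp_strictMono _ hi)) _
      · exact hu.spl i hi x
    · exact frz_of_id fun α hα i x => hu.low x _ (sp_lt_sp.2 (Or.inl (hF hα)))
    · rw [Finset.card_insert_of_notMem fun h' => lt_irrefl _ (hδ _ h'), mul_add, mul_one,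
        add_comm, pow_add, ← mul_assoc]
      exact b2 x
    · show a (q (u (p₃ (p₄ x)))) ⊆ _
      rw [hκ']
      exact a4 _

end

theorem finite_bounded (L G : ℕ) : {g : ℕ → ℕ | ∀ k, g k ≤ G ∧ (L ≤ k → g k = 0)}.Finite := by
  refine (finite_range fun (σ : Fin L → Fin (G + 1)) (k : ℕ) =>
    if h : k < L then (σ ⟨k, h⟩ : ℕ) else 0).subset fun g hg => ?_
  refine ⟨fun i => ⟨g i, Nat.lt_succ_of_le (hg i).1⟩, funext fun k => ?_⟩
  by_cases h : k < L
  · simp [h]
  · simp [h, (hg k).2 (not_lt.1 h)]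

/-- Every bounded real is everywhere different from a real read below `β₀`. -/
theorem laver (β₀ : I) {b h : X I → ℕ → ℕ} {L : ℕ → X I → ℕ}
    (hb : ∀ k, CD (Iio (sp β₀ 0)) fun x => b x k) (hh : ∀ k, CD univ fun x => h x k)
    (hlt : ∀ x k, h x k < b x k) (hL : ∀ N, CD (Iio (sp β₀ 0)) (L N))
    (hL' : ∀ N x k, L N x ≤ k → N < b x k) :
    ∃ p, Cnd univ p ∧ ∃ f : X I → ℕ → ℕ, (∀ k, CD (Iio (sp β₀ 0)) fun x => f x k) ∧
      ∀ x k, f x k < b (p x) k ∧ (1 < b (p x) k → f x k ≠ h (p x) k) := by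
  classical
  let B : ℕ → ℕ := fun n => Fintype.card (Ty n) ^ (n * (1 + n))
  let G : ℕ → ℕ := fun n => B (n + 1) + n
  let a : ℕ → X I → ℕ → ℕ := fun n x k => if b x k ≤ G n then h x k else 0
  have ha : ∀ n, CD univ (a n) := fun n => by
    refine CD.of_local (J := Option ℕ) (Y := fun _ => ℕ × ℕ)
      (g := fun j x => j.elim (L (G n) x, 0) fun k => (b x k, h x k)) ?_ fun x =>
      ⟨insert none (some '' Iio (L (G n) x)), ((finite_Iio _).image _).insert _, fun y hy => ?_⟩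
    · rintro (_ | k)
      · exact ((hL _).mono (subset_univ _)).map fun m => (m, 0)
      · exact ((hb k).mono (subset_univ _)).map₂ (hh k) Prod.mk
    · have h0 : L (G n) y = L (G n) x := congrArg Prod.fst (hy none (Or.inl rfl))
      funext k
      rcases lt_or_ge k (L (G n) x) with hk | hk
      · have := hy (some k) (Or.inr ⟨k, hk, rfl⟩)
        simp only [Option.elim, Prod.mk.injEq] at this
        simp only [a, this.1, this.2]
      · simp only [a, if_neg (not_le.2 (hL' _ x k hk)), if_neg (not_le.2 (hL' _ y k (h0 ▸ hk)))]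
  obtain ⟨r, hr, -, H⟩ := fusion (A := univ) Vn_mono exists_Vn {β₀} (subset_univ _) 0
    (Q := fun n r => ∃ S : X I → Set (ℕ → ℕ), CD (Iio (sp β₀ 0)) S ∧
      ∀ x, (S x).encard ≤ (B n : ℕ) ∧ a n (r x) ∈ S x) (fun n p F hp _ hF hc => by
      obtain ⟨q, h1, h2, S, h3, h4, h5⟩ := lp_step (β₀ := β₀) (n := n) F univ
        (fun x => {a n (p x)})
        (fun x => {g : ℕ → ℕ | ∀ k, g k ≤ G n ∧ (L (G n) (p x) ≤ k → g k = 0)}) 1 isLowerSet_univ
        (subset_univ _) (fun _ => hF (Finset.mem_singleton_self _))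
        (((ha n).comp isLowerSet_univ hp.cau).map fun g => ({g} : Set (ℕ → ℕ)))
        (((hL _).comp (isLowerSet_Iio _) hp.cau).map
          fun m => {g : ℕ → ℕ | ∀ k, g k ≤ G n ∧ (m ≤ k → g k = 0)})
        (fun x => finite_bounded _ _) (fun x => singleton_subset_iff.2 fun k => ⟨by
          simp only [a]
          split_ifs with h'
          · exact (hlt _ _).le.trans h'
          · exact Nat.zero_le _, fun hk => if_neg (not_le.2 (hL' _ _ k hk))⟩)
        (fun x => by simp)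
      refine ⟨q, h1, by simpa using h2, S, h3, fun x => ⟨(h4 x).trans ?_, h5 x rfl⟩⟩
      rw [one_mul]
      refine Nat.cast_le.2 (Nat.pow_le_pow_right Fintype.card_pos (Nat.mul_le_mul_left _ ?_))
      simpa using hc)
  have H' : ∀ n, ∃ S : X I → Set (ℕ → ℕ), CD (Iio (sp β₀ 0)) S ∧
      ∀ x, (S x).encard ≤ (B n : ℕ) ∧ a n (r x) ∈ S x := fun n => by
    obtain ⟨p, w, -, hw, ⟨S, h1, h2⟩, rfl⟩ := H n
    exact ⟨fun x => S (w x), h1.comp (isLowerSet_Iio _) hw.cau, fun x => h2 _⟩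
  choose S hS1 hS2 using H'
  have hex : ∀ m, ∃ n, m ≤ G n := fun m => ⟨m, Nat.le_add_left _ _⟩
  let φ : ℕ → ℕ → X I → ℕ := fun k m x =>
    if 1 < m then sInf {v | ∀ g ∈ S (Nat.find (hex m)) x, g k ≠ v} else 0
  refine ⟨r, hr, fun x k => φ k (b (r x) k) x, fun k => CD.cases
    ((hb k).comp (isLowerSet_Iio _) hr.cau) (F := φ k) fun x =>
      (hS1 _).map fun K => if 1 < b (r x) k then sInf {v | ∀ g ∈ K, g k ≠ v} else 0,
    fun x k => ?_⟩
  by_cases hm : 1 < b (r x) k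
  swap
  · have := hlt (r x) k
    exact ⟨by simp only [φ, if_neg hm]; omega, fun h' => absurd h' hm⟩
  set m := b (r x) k with hmdef
  set n := Nat.find (hex m) with hn
  have hB : B n < m := by
    rcases Nat.eq_zero_or_pos n with h0 | h0
    · rw [h0]; simpa [B] using hm
    · have := Nat.find_min (hex m) (show n - 1 < Nat.find (hex m) by omega)
      simp only [G, Nat.sub_add_cancel h0] at this
      omega
  obtain ⟨v, hv1, hv2⟩ : ∃ v < m, ∀ g ∈ S n x, g k ≠ v := by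
    by_contra hc
    push Not at hc
    have h1 : Iio m ⊆ (fun g : ℕ → ℕ => g k) '' S n x := fun v hv => hc v hv
    have h2 := (encard_le_encard h1).trans ((encard_image_le _ _).trans (hS2 n x).1)
    rw [← Finset.coe_Iio, encard_coe_eq_coe_finsetCard, Nat.card_Iio, Nat.cast_le] at h2
    omega
  have e0 : φ k m x = sInf {v | ∀ g ∈ S n x, g k ≠ v} := if_pos hm
  show φ k m x < m ∧ (1 < m → φ k m x ≠ _)
  rw [e0]
  refine ⟨(Nat.sInf_le (s := {v | ∀ g ∈ S n x, g k ≠ v}) hv2).trans_lt hv1, fun _ e => ?_⟩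
  refine Nat.sInf_mem (s := {v | ∀ g ∈ S n x, g k ≠ v}) ⟨v, hv2⟩ _ (hS2 n x).2 ?_
  rw [e]
  exact if_pos (Nat.find_spec (hex m))

end Pool.Agent.Lib.Common.TreeIter
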