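import Mathlib
import Pool.Agent.Lib.Common.TreeIter.Pure

/-!
Reduced conditions, and the thinning making an old real constant on the generic pairs.
-/

set_option autoImplicit false
set_option linter.unusedSectionVars false

namespace Pool.Agent.Lib.Common.TreeIter

open Set Filter Function

variable {I : Type} [LinearOrder I] [WellFoundedLT I]

theorem Cnd.exists_cert {T : Set (W I)} {q : X I → X I} (hq : Cnd T q) (α : I) :
    ∃ ce : ℕ → X I → Prop, (∀ j, CD (Iio (sp α j)) (ce j)) ∧
      (∀ j z, ce j z → IsS (sm q (sp α j) z)) ∧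
      ∀ x, ∃ L, ∀ᶠ y in nb univ x, ∀ j ≥ L, ce j y := by
  classical
  obtain ⟨S, h1, h2, h3⟩ := CD.common (T := co ⁻¹' Iic α) (Y := fun _ => V)
    (countable_univ (α := ℕ × V)) (f := fun c x => sm q (sp α c.1) x c.2) fun c _ =>
      (hq.cau.cd_sm _ _).mono fun s hs => (lt_sp_iff.1 hs).elim le_of_lt fun h => h.1.le
  have hc : {c : (X I → X I) × ℕ | (∃ D z, D.Finite ∧ D ⊆ S ∧ c.1 = fix D z) ∧
      ∀ y, c.1 y = y → ∀ j ≥ c.2, IsS (sm q (sp α j) y)}.Countable :=
    ((countable_fix h2).prod (countable_univ (α := ℕ))).mono fun c hc =>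
      mk_mem_prod hc.1 (mem_univ c.2)
  have hx : ∀ x, ∃ D L, D.Finite ∧ D ⊆ S ∧
      ∀ y, fix D x y = y → ∀ j ≥ L, IsS (sm q (sp α j) y) := fun x => by
    obtain ⟨L, hL⟩ := hq.spl α x
    obtain ⟨D, a, b, c⟩ := nb_restrict (S := S) hL fun y z hyz hy j hj => by
      have : sm q (sp α j) z = sm q (sp α j) y := funext fun v =>
        nb_of_agree (h3 (j, v) trivial y) fun s hs => (hyz s hs).symm
      rw [this]
      exact hy j hj
    exact ⟨D, L, a, b, fun y hy => c y (fix_eq_self.1 hy)⟩
  obtain ⟨e, he⟩ := hc.exists_eq_range (by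
    obtain ⟨D, L, a, b, c⟩ := hx default
    exact ⟨(fix D default, L), ⟨D, default, a, b, rfl⟩, c⟩)
  let g : ℕ → ℕ → X I → Prop := fun j m y =>
    (e m).2 ≤ j ∧ CD (Iio (sp α j)) (fun y => (e m).1 y = y) ∧ (e m).1 y = y
  refine ⟨fun j z => ∃ m ≤ j, g j m z, fun j => ?_, fun j z ⟨m, _, a, _, b⟩ => ?_, fun x => ?_⟩
  · refine CD.of_local (g := g j) (fun m => ?_) fun x => ⟨Iic j, finite_Iic j, fun y hy =>
      propext (exists_congr fun m => and_congr_right fun hm => by rw [hy m hm])⟩
    by_cases h : CD (Iio (sp α j)) (fun y => (e m).1 y = y)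
    · exact h.map fun b => (e m).2 ≤ j ∧ CD (Iio (sp α j)) (fun y => (e m).1 y = y) ∧ b
    · simpa [g, h] using CD.const (Iio (sp α j)) False
  · have : e m ∈ range e := ⟨m, rfl⟩
    rw [← he] at this
    exact this.2 z b j a
  · obtain ⟨D, L, a, b, c⟩ := hx x
    obtain ⟨m, hm⟩ : (fix D x, L) ∈ range e := he ▸ ⟨⟨D, x, a, b, rfl⟩, c⟩
    obtain ⟨L', hL'⟩ := (a.image lv).bddAbove
    refine ⟨m + L + L' + 1, D, a, subset_univ _, fun y hy j hj => ⟨m, by omega, ?_⟩⟩
    simp only [g, hm]
    refine ⟨by omega, ⟨D, fun s hs => ?_, a.countable, fun z => ⟨D, a, subset_rfl,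
      fun w hw => ?_⟩⟩, fix_eq_self.2 hy⟩
    · have := hL' (mem_image_of_mem lv hs)
      exact lt_sp_iff.2 ((show co s ≤ α from h1 (b hs)).lt_or_eq.imp (fun h => h)
        fun h => ⟨h, by omega⟩)
    · show (fix D x w = w) = (fix D x z = z)
      rw [fix_eq_self, fix_eq_self]
      exact propext (forall₂_congr fun s hs => by rw [hw s hs])

/-- Killing the index spots that are not used by the condition. -/
theorem Cnd.reduce {T : Set (W I)} {q : X I → X I} (hq : Cnd T q) :
    ∃ c, Cnd T c ∧ ∀ x y, q (c x) = q (c y) → c x = c y := by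
  classical
  choose ce h1 h2 h3 using hq.exists_cert
  obtain ⟨ce', hce⟩ : ∃ ce' : W I → X I → Prop,
      ∀ s z, ce' s z ↔ (∀ x, q x s = x s) ∨ ce (co s) (lv s) z := ⟨_, fun _ _ => Iff.rfl⟩
  have h1' : ∀ s, CD (Iio s) (ce' s) := fun s => by
    rw [show ce' s = _ from funext fun z => propext (hce s z)]
    exact (h1 (co s) (lv s)).map fun b => (∀ x, q x s = x s) ∨ b
  have h2' : ∀ s z, ce' s z → IsS (sm q s z) := fun s z h =>
    ((hce s z).1 h).elim (fun h => isS_of_id h z) (h2 (co s) (lv s) z)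
  let c : X I → X I := fun x => (wellFounded_lt (α := W I)).fix fun s ih =>
    if ce' s (fun t => if h : t < s then ih t h else default) then x s else default
  have hc : ∀ x s, c x s = if ce' s (c x) then x s else default := by
    intro x s
    have : ce' s (fun t => if t < s then c x t else default) = ce' s (c x) :=
      (h1' s).congr fun t ht => if_pos ht
    rw [← this]
    conv_lhs => simp only [c]
    rw [WellFounded.fix_eq]
    simp only [dite_eq_ite]
    rfl
  have hcau : Cau c := by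
    intro s
    induction s using WellFoundedLT.induction with
    | ind s ih =>
      have a : Cau fun x t => if t < s then c x t else x t := fun t => by
        by_cases h : t < s
        · simpa only [if_pos h] using ih t h
        · simpa only [if_neg h] using CD.spot (T := Iic t) (mem_Iic.2 le_rfl)
      have b : CD (Iio s) fun x => ce' s (c x) := by
        have := (h1' s).comp (isLowerSet_Iio s) a
        have e : (fun x => ce' s fun t => if t < s then c x t else x t) = fun x => ce' s (c x) :=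
          funext fun x => (h1' s).congr fun t ht => if_pos ht
        rwa [e] at this
      simp only [hc _ s]
      exact (b.mono Iio_subset_Iic_self).map₂ (CD.spot (mem_Iic.2 le_rfl))
        fun (P : Prop) v => if P then v else default
  have hid : ∀ s, (∀ x, q x s = x s) → ∀ x, c x s = x s := fun s h x => by
    rw [hc, if_pos ((hce _ _).2 (Or.inl h))]
  refine ⟨c, ⟨hcau, hq.supp.mono fun s ⟨x, hx⟩ => ?_, fun α x => ?_,
    fun x s hs => hid s (fun y => hq.sup y s hs) x⟩, fun x y hxy => funext fun s => ?_⟩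
  · by_contra hcon
    simp only [mem_ofPred_eq, not_exists, not_not] at hcon
    exact hx (hid s hcon x)
  · obtain ⟨L, hL⟩ := h3 α (c x)
    refine ⟨L, (hcau.ev isLowerSet_univ hL).mono fun y hy j hj => ?_⟩
    have : sm c (sp α j) y = fun v => v := funext fun v => by
      have e : ce' (sp α j) (c (update y (sp α j) v)) = ce' (sp α j) (c y) :=
        (h1' _).congr fun t ht => hcau.update_lt ht y v
      rw [sm, hc, e, if_pos ((hce (sp α j) _).2 (Or.inr (hy j hj))), update_self]
    rw [this]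
    exact IsS.id
  · induction s using WellFoundedLT.induction with
    | ind s ih =>
      have e : ce' s (c x) = ce' s (c y) := (h1' s).congr ih
      by_cases h : ce' s (c y)
      · refine (h2' s _ h).injective ?_
        rw [sm_self, ← hq.cau.sm_congr ih, sm_self, hxy]
      · rw [hc x, hc y, e, if_neg h, if_neg h]

/-- An old binary real is made constant on almost all generic pairs of the coordinate `α`. -/
theorem cover (α : I) {r : X I → ℕ → ℕ} (hr : ∀ k, CD (Iio (sp α 0)) fun x => r x k)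
    (hr2 : ∀ x k, r x k < 2) {p : X I → X I} (hp : Cnd univ p) :
    ∃ q, Cnd univ q ∧ ∃ j₀, ∀ x, ∀ j ≥ j₀, j ≤ (p (q x) (sp α j)).1.1 ∧
      r (q x) (p (q x) (sp α j)).1.1 = r (q x) (p (q x) (sp α j)).1.2 := by
  obtain ⟨q, E, hq, hE, hEs, hEc⟩ := (pd_Iio α).thin (K := univ) finite_univ
    (c := fun j x => j ≤ (p x (sp α j)).1.1 ∧ r x (p x (sp α j)).1.1 = r x (p x (sp α j)).1.2)
    (fun j => CD.cases (hp.cau (sp α j)) (F := fun v x => j ≤ v.1.1 ∧ r x v.1.1 = r x v.1.2)
      fun x => (((hr _).map₂ (hr _) fun a b => j ≤ (p x (sp α j)).1.1 ∧ a = b)).mono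
        fun s hs => (hs.trans_le (sp_mono α (Nat.zero_le j))).le) (fun _ _ => trivial)
  have hR : Cnd univ (q ∘ E) := (hq.mono (subset_univ _)).comp (hE.mono (subset_univ _))
  obtain ⟨L, hL⟩ := hp.spl α (q (E default))
  obtain ⟨D, a1, a2, a3⟩ := exists_fix (hR.cau.ev isLowerSet_univ hL)
  refine ⟨(q ∘ E) ∘ fix D default, hR.comp (cnd_fix a1 a2 _), L, fun x j hj => ?_⟩
  simp only [comp_apply]
  have b := a3 x j hj
  generalize fix D default x = y at b
  have hS : IsS (sm (p ∘ q ∘ E) (sp α j) y) := by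
    rw [sm_comp hp.cau hR.cau, sm_comp hq.cau hE.cau]
    exact b.comp ((isS_of_id (fun z => hq.sup z _ (not_lt.2 (sp_mono α (Nat.zero_le j)))) _).comp
      (hEs j y))
  obtain ⟨e, he, he'⟩ := hS
  have hrr : ∀ v k, r (q (E (update y (sp α j) v))) k = r (q (E y)) k := fun v k =>
    (hr k).congr (hR.cau.agree_lt fun t ht =>
      update_of_ne (ht.trans_le (sp_mono α (Nat.zero_le j))).ne _ _)
  obtain ⟨i, i', h1, h2, h3⟩ : ∃ i i', j ≤ i ∧ i < i' ∧ r (q (E y)) (e i) = r (q (E y)) (e i') := by
    have := hr2 (q (E y)) (e j)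
    have := hr2 (q (E y)) (e (j + 1))
    have := hr2 (q (E y)) (e (j + 2))
    by_cases c1 : r (q (E y)) (e j) = r (q (E y)) (e (j + 1))
    · exact ⟨j, j + 1, le_rfl, by omega, c1⟩
    by_cases c2 : r (q (E y)) (e j) = r (q (E y)) (e (j + 2))
    · exact ⟨j, j + 2, le_rfl, by omega, c2⟩
    exact ⟨j + 1, j + 2, by omega, by omega, by omega⟩
  rw [← hEc j y ⟨(i, i'), h2⟩]
  have e1 : (p (q (E (update y (sp α j) ⟨(i, i'), h2⟩))) (sp α j)).1 = (e i, e i') := he' _
  rw [e1, hrr, hrr]
  exact ⟨h1.trans (he.id_le i), h3⟩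

end Pool.Agent.Lib.Common.TreeIter
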